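import Mathlib
import Pool.Agent.Y104.LocSpec.Defs

set_option autoImplicit false

open Matrix Polynomial

namespace Pool.Agent.Y104.LocSpec

variable {kk : Type*} [Field kk] [IsAlgClosed kk] [CharZero kk] {n : ℕ}

/-- polynomial along lines -/
def PL {E : Type*} [AddCommGroup E] [Module kk E] (F : E → kk) : Prop :=
  ∀ p v : E, ∃ P : kk[X], ∀ t : kk, F (p + t • v) = P.eval t

section PLs
variable {E E' : Type*} [AddCommGroup E] [Module kk E] [AddCommGroup E'] [Module kk E']

theorem PL.const (c : kk) : PL (fun _ : E => c) := fun _ _ => ⟨C c, fun t => by simp⟩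

theorem PL.add {F G : E → kk} (hF : PL F) (hG : PL G) : PL (fun p => F p + G p) := by
  intro p v
  obtain ⟨P, hP⟩ := hF p v
  obtain ⟨Q, hQ⟩ := hG p v
  exact ⟨P + Q, fun t => by simp [hP, hQ]⟩

theorem PL.sub {F G : E → kk} (hF : PL F) (hG : PL G) : PL (fun p => F p - G p) := by
  intro p v
  obtain ⟨P, hP⟩ := hF p v
  obtain ⟨Q, hQ⟩ := hG p v
  exact ⟨P - Q, fun t => by simp [hP, hQ]⟩

theorem PL.neg {F : E → kk} (hF : PL F) : PL (fun p => - F p) := by
  intro p v
  obtain ⟨P, hP⟩ := hF p v
  exact ⟨-P, fun t => by simp [hP]⟩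

theorem PL.mul {F G : E → kk} (hF : PL F) (hG : PL G) : PL (fun p => F p * G p) := by
  intro p v
  obtain ⟨P, hP⟩ := hF p v
  obtain ⟨Q, hQ⟩ := hG p v
  exact ⟨P * Q, fun t => by simp [hP, hQ]⟩

theorem PL.pow {F : E → kk} (hF : PL F) (k : ℕ) : PL (fun p => F p ^ k) := by
  intro p v
  obtain ⟨P, hP⟩ := hF p v
  exact ⟨P ^ k, fun t => by simp [hP]⟩

theorem PL.sum {ι : Type*} (s : Finset ι) {F : ι → E → kk} (hF : ∀ i ∈ s, PL (F i)) :
    PL (fun p => ∑ i ∈ s, F i p) := by
  classical
  induction s using Finset.induction_on with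
  | empty => simpa using PL.const (E := E) 0
  | insert a s ha ih =>
    simp only [Finset.sum_insert ha]
    exact (hF a (Finset.mem_insert_self a s)).add (ih fun i hi => hF i (Finset.mem_insert_of_mem hi))

theorem PL.prod {ι : Type*} (s : Finset ι) {F : ι → E → kk} (hF : ∀ i ∈ s, PL (F i)) :
    PL (fun p => ∏ i ∈ s, F i p) := by
  classical
  induction s using Finset.induction_on with
  | empty => simpa using PL.const (E := E) 1
  | insert a s ha ih =>
    simp only [Finset.prod_insert ha]
    exact (hF a (Finset.mem_insert_self a s)).mul (ih fun i hi => hF i (Finset.mem_insert_of_mem hi))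

theorem PL.comp {F : E → kk} (hF : PL F) (L : E' →ₗ[kk] E) : PL (fun p => F (L p)) := by
  intro p v
  obtain ⟨P, hP⟩ := hF (L p) (L v)
  exact ⟨P, fun t => by rw [← hP]; simp only [map_add, map_smul]⟩

theorem PL.compAff {F : E → kk} (hF : PL F) (L : E' →ₗ[kk] E) (c : E) : PL (fun p => F (L p + c)) := by
  intro p v
  obtain ⟨P, hP⟩ := hF (L p + c) (L v)
  refine ⟨P, fun t => ?_⟩
  rw [← hP]
  simp only [map_add, map_smul]
  congr 1
  abel

theorem PL.lin (L : E →ₗ[kk] kk) : PL (fun p => L p) := by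
  intro p v
  exact ⟨C (L p) + X * C (L v), fun t => by simp; ring⟩

/-- Two nonzero polynomial-along-lines functions have a common nonzero. -/
theorem PL.two {F G : E → kk} (hF : PL F) (hG : PL G) (hF0 : ∃ p, F p ≠ 0) (hG0 : ∃ p, G p ≠ 0) :
    ∃ p, F p ≠ 0 ∧ G p ≠ 0 := by
  obtain ⟨p, hp⟩ := hF0
  obtain ⟨q, hq⟩ := hG0
  obtain ⟨P, hP⟩ := hF p (q - p)
  obtain ⟨Q, hQ⟩ := hG p (q - p)
  have hP0 : P ≠ 0 := by
    rintro rfl
    have := hP 0
    simp at this
    exact hp this
  have hQ0 : Q ≠ 0 := by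
    rintro rfl
    have := hQ 1
    simp at this
    exact hq this
  have hPQ : P * Q ≠ 0 := mul_ne_zero hP0 hQ0
  obtain ⟨t, ht⟩ := Polynomial.exists_eval_ne_zero_of_natDegree_lt_card (P * Q) hPQ (by
    simpa using Cardinal.natCast_lt_aleph0.trans_le (Cardinal.aleph0_le_mk kk))
  rw [Polynomial.eval_mul] at ht
  refine ⟨p + t • (q - p), ?_, ?_⟩
  · rw [hP]; exact left_ne_zero_of_mul ht
  · rw [hQ]; exact right_ne_zero_of_mul ht

theorem PL.many {ι : Type*} (s : Finset ι) {F : ι → E → kk} (hF : ∀ i ∈ s, PL (F i))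
    (h0 : ∀ i ∈ s, ∃ p, F i p ≠ 0) : ∃ p, ∀ i ∈ s, F i p ≠ 0 := by
  classical
  suffices h : ∃ p, ∏ i ∈ s, F i p ≠ 0 by
    obtain ⟨p, hp⟩ := h
    exact ⟨p, fun i hi => Finset.prod_ne_zero_iff.mp hp i hi⟩
  induction s using Finset.induction_on with
  | empty => exact ⟨0, by simp⟩
  | insert a s ha ih =>
    obtain ⟨p, hp, hq⟩ := PL.two (hF a (Finset.mem_insert_self a s))
      (PL.prod s fun i hi => hF i (Finset.mem_insert_of_mem hi)) (h0 a (Finset.mem_insert_self a s))
      (ih (fun i hi => hF i (Finset.mem_insert_of_mem hi)) fun i hi => h0 i (Finset.mem_insert_of_mem hi))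
    exact ⟨p, by rw [Finset.prod_insert ha]; exact mul_ne_zero hp hq⟩

/-- Identity theorem. -/
theorem PL.eq_zero {F G : E → kk} (hF : PL F) (hG : PL G) (hG0 : ∃ p, G p ≠ 0)
    (h : ∀ p, G p ≠ 0 → F p = 0) (p : E) : F p = 0 := by
  by_contra hp
  obtain ⟨q, hq1, hq2⟩ := PL.two hF hG ⟨p, hp⟩ hG0
  exact hq1 (h q hq2)

/-- Matrix valued functions, entrywise polynomial along lines. -/
def PLM {m k : Type*} (F : E → Matrix m k kk) : Prop := ∀ i j, PL (fun p => F p i j)

theorem PLM.const {m k : Type*} (M : Matrix m k kk) : PLM (fun _ : E => M) := fun _ _ => PL.const _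

theorem PLM.mul {m k l : Type*} [Fintype k] {F : E → Matrix m k kk} {G : E → Matrix k l kk}
    (hF : PLM F) (hG : PLM G) : PLM (fun p => F p * G p) := by
  intro i j
  simp only [Matrix.mul_apply]
  exact PL.sum _ fun a _ => (hF i a).mul (hG a j)

theorem PLM.add {m k : Type*} {F G : E → Matrix m k kk}
    (hF : PLM F) (hG : PLM G) : PLM (fun p => F p + G p) := fun i j => (hF i j).add (hG i j)

theorem PLM.sub {m k : Type*} {F G : E → Matrix m k kk}
    (hF : PLM F) (hG : PLM G) : PLM (fun p => F p - G p) := fun i j => (hF i j).sub (hG i j)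

theorem PLM.smul {m k : Type*} {c : E → kk} {F : E → Matrix m k kk}
    (hc : PL c) (hF : PLM F) : PLM (fun p => c p • F p) := fun i j => hc.mul (hF i j)

theorem PLM.pow {m : Type*} [Fintype m] [DecidableEq m] {F : E → Matrix m m kk} (hF : PLM F) (k : ℕ) :
    PLM (fun p => F p ^ k) := by
  induction k with
  | zero => simpa using PLM.const (E := E) (1 : Matrix m m kk)
  | succ k ih => simpa only [pow_succ] using ih.mul hF

theorem PLM.lin {m k : Type*} (L : E →ₗ[kk] Matrix m k kk) : PLM (fun p => L p) := by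
  intro i j
  exact PL.lin ((Matrix.entryLinearMap kk kk i j) ∘ₗ L)

theorem PLM.trace {m : Type*} [Fintype m] {F : E → Matrix m m kk} (hF : PLM F) :
    PL (fun p => (F p).trace) := PL.sum _ fun a _ => hF a a

theorem PLM.det {m : Type*} [Fintype m] [DecidableEq m] {F : E → Matrix m m kk} (hF : PLM F) :
    PL (fun p => (F p).det) := by
  simp only [Matrix.det_apply']
  exact PL.sum _ fun σ _ => (PL.const _).mul (PL.prod _ fun i _ => hF _ _)

theorem PLM.comp {m k : Type*} {F : E → Matrix m k kk} (hF : PLM F) (L : E' →ₗ[kk] E) :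
    PLM (fun p => F (L p)) := fun i j => (hF i j).comp L

end PLs

/-- test function for n distinct local eigenvalues -/
noncomputable def dlt {n : ℕ} (x : Fin n → kk) (C : Mat kk n) : kk :=
  (Matrix.of fun i j : Fin n => trace (C ^ ((i : ℕ) + (j : ℕ)))).det *
    (Matrix.of fun i j : Fin n => ((C ^ (j : ℕ)) *ᵥ x) i).det

theorem exists_decomp (T : Mat kk n) (x : Fin n → kk) :
    ∃ y : kk →₀ (Fin n → kk), (∀ m, ((T - m • (1 : Mat kk n)) ^ n) *ᵥ y m = 0) ∧
      (y.sum fun _ v => v) = x := by
  have h1 := Module.End.iSup_maxGenEigenspace_eq_top (K := kk) (Matrix.toLin' T)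
  have hx : x ∈ ⨆ m : kk, Module.End.maxGenEigenspace (Matrix.toLin' T) m := by
    rw [h1]; trivial
  rw [Submodule.mem_iSup_iff_exists_finsupp] at hx
  obtain ⟨y, hy, hs⟩ := hx
  refine ⟨y, fun m => ?_, hs⟩
  have := hy m
  rw [Module.End.maxGenEigenspace_eq_genEigenspace_finrank] at this
  rw [Module.End.mem_genEigenspace_nat] at this
  have h2 : Module.finrank kk (Fin n → kk) = n := by simp
  rw [h2] at this
  have h3 : (Matrix.toLin' T - m • (1 : Module.End kk (Fin n → kk))) = Matrix.toLin' (T - m • (1 : Mat kk n)) := by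
    rw [map_sub, map_smul, Matrix.toLin'_one]; rfl
  rw [LinearMap.mem_ker, h3, ← Matrix.toLin'_pow, Matrix.toLin'_apply] at this
  exact this

theorem aeval_X_sub_pow (T : Mat kk n) (m : kk) (k : ℕ) :
    aeval T ((X - C m) ^ k) = (T - m • (1 : Mat kk n)) ^ k := by
  rw [map_pow, map_sub, aeval_X, aeval_C, Algebra.algebraMap_eq_smul_one]

theorem aeval_mul_mulVec (T : Mat kk n) (p q : kk[X]) (x : Fin n → kk) :
    (aeval T (p * q)) *ᵥ x = (aeval T p) *ᵥ ((aeval T q) *ᵥ x) := by
  rw [map_mul, Matrix.mulVec_mulVec]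

theorem kill_prod (T : Mat kk n) (s : Finset kk) (m : kk) (hm : m ∈ s) (v : Fin n → kk)
    (hv : ((T - m • (1 : Mat kk n)) ^ n) *ᵥ v = 0) :
    (aeval T (∏ m ∈ s, (X - C m) ^ n)) *ᵥ v = 0 := by
  classical
  rw [← Finset.prod_erase_mul _ _ hm, aeval_mul_mulVec, aeval_X_sub_pow, hv, Matrix.mulVec_zero]

theorem mulVec_finsupp_sum (M : Mat kk n) (y : kk →₀ (Fin n → kk)) :
    M *ᵥ (y.sum fun _ v => v) = ∑ m ∈ y.support, M *ᵥ y m := by
  rw [Finsupp.sum]
  exact map_sum (Matrix.mulVecLin M) _ _

theorem eq_zero_of_coprime (T : Mat kk n) (p q : kk[X]) (h : IsCoprime p q) (v : Fin n → kk)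
    (hp : (aeval T p) *ᵥ v = 0) (hq : (aeval T q) *ᵥ v = 0) : v = 0 := by
  obtain ⟨a, b, hab⟩ := h
  have : (aeval T (a * p + b * q)) *ᵥ v = 0 := by
    rw [map_add, Matrix.add_mulVec, aeval_mul_mulVec, aeval_mul_mulVec, hp, hq]
    simp
  rw [hab, map_one, Matrix.one_mulVec] at this
  exact this

theorem eval_prod_ne (s : Finset kk) (l : kk) (hl : l ∉ s) (k : ℕ) :
    (∏ m ∈ s, (X - C m) ^ k : kk[X]).eval l ≠ 0 := by
  rw [Polynomial.eval_prod]
  refine Finset.prod_ne_zero_iff.mpr fun m hm => ?_
  simp only [eval_pow, eval_sub, eval_X, eval_C]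
  refine pow_ne_zero _ (sub_ne_zero.mpr ?_)
  rintro rfl
  exact hl hm

theorem decomp_eval (T : Mat kk n) (x : Fin n → kk) (y : kk →₀ (Fin n → kk))
    (hy : ∀ m, ((T - m • (1 : Mat kk n)) ^ n) *ᵥ y m = 0) (hs : (y.sum fun _ v => v) = x)
    (l : kk) (hl : y l ≠ 0) (p : kk[X]) (hp : (aeval T p) *ᵥ x = 0) : p.eval l = 0 := by
  classical
  by_contra hpl
  set q : kk[X] := ∏ m ∈ y.support.erase l, (X - C m) ^ n with hq
  have h1 : (aeval T (p * q)) *ᵥ x = 0 := by
    rw [mul_comm, aeval_mul_mulVec, hp, Matrix.mulVec_zero]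
  have h2 : (aeval T (p * q)) *ᵥ y l = 0 := by
    rw [← hs, mulVec_finsupp_sum, ← Finset.add_sum_erase _ _ (Finsupp.mem_support_iff.mpr hl)] at h1
    rw [Finset.sum_eq_zero, add_zero] at h1
    · exact h1
    · intro m hm
      rw [aeval_mul_mulVec, kill_prod T _ m hm _ (hy m), Matrix.mulVec_zero]
  have h3 : (p * q).eval l ≠ 0 := by
    rw [eval_mul]
    exact mul_ne_zero hpl (eval_prod_ne _ l (by simp) n)
  have h4 : IsCoprime ((X - C l) ^ n) (p * q) := by
    apply IsCoprime.pow_left
    rw [(Polynomial.irreducible_X_sub_C l).coprime_iff_not_dvd, Polynomial.dvd_iff_isRoot]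
    exact h3
  exact hl (eq_zero_of_coprime T _ _ h4 (y l) (by rw [aeval_X_sub_pow]; exact hy l) h2)

theorem decomp_ann (T : Mat kk n) (x : Fin n → kk) (y : kk →₀ (Fin n → kk))
    (hy : ∀ m, ((T - m • (1 : Mat kk n)) ^ n) *ᵥ y m = 0) (hs : (y.sum fun _ v => v) = x) :
    (aeval T (∏ m ∈ y.support, (X - C m) ^ n)) *ᵥ x = 0 := by
  rw [← hs, mulVec_finsupp_sum]
  exact Finset.sum_eq_zero fun m hm => kill_prod T _ m hm _ (hy m)

theorem mem_localSpectrum_iff (T : Mat kk n) (x : Fin n → kk) (l : kk) :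
    l ∈ localSpectrum T x ↔ ∀ p : kk[X], (aeval T p) *ᵥ x = 0 → p.eval l = 0 := by
  constructor
  · rintro ⟨y, hy, hs, hl⟩ p hp
    exact decomp_eval T x y hy hs l hl p hp
  · intro h
    obtain ⟨y, hy, hs⟩ := exists_decomp T x
    refine ⟨y, hy, hs, fun hl => ?_⟩
    exact eval_prod_ne y.support l (by simpa using hl) n (h _ (decomp_ann T x y hy hs))

theorem exists_ann (T : Mat kk n) (x : Fin n → kk) :
    ∃ s : Finset kk, (s : Set kk) = localSpectrum T x ∧
      (aeval T (∏ m ∈ s, (X - C m) ^ n)) *ᵥ x = 0 := by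
  obtain ⟨y, hy, hs⟩ := exists_decomp T x
  refine ⟨y.support, ?_, decomp_ann T x y hy hs⟩
  ext l
  constructor
  · intro hl
    exact ⟨y, hy, hs, by simpa using hl⟩
  · intro hl
    by_contra hc
    exact eval_prod_ne y.support l (by simpa using hc) n
      ((mem_localSpectrum_iff T x l).mp hl _ (decomp_ann T x y hy hs))

theorem exists_eigvec (T : Mat kk n) (x : Fin n → kk) (l : kk) (hl : l ∈ localSpectrum T x) :
    ∃ v : Fin n → kk, v ≠ 0 ∧ T *ᵥ v = l • v := by
  obtain ⟨y, hy, -, hne⟩ := hl
  have h1 : ((T - l • (1 : Mat kk n)) ^ n).det = 0 :=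
    Matrix.exists_mulVec_eq_zero_iff.1 ⟨y l, hne, hy l⟩
  rw [det_pow] at h1
  have h2 : (T - l • (1 : Mat kk n)).det = 0 := by
    by_contra hcon
    exact (pow_ne_zero n hcon) h1
  obtain ⟨v, hv, hTv⟩ := Matrix.exists_mulVec_eq_zero_iff.2 h2
  refine ⟨v, hv, ?_⟩
  rw [Matrix.sub_mulVec, Matrix.smul_mulVec, Matrix.one_mulVec, sub_eq_zero] at hTv
  exact hTv

theorem trace_pow_aux (T : Mat kk n) (s : Finset kk) (hs : s.card = n)
    (h : ∀ l ∈ s, ∃ v : Fin n → kk, v ≠ 0 ∧ T *ᵥ v = l • v) (k : ℕ) :
    trace (T ^ k) = ∑ l ∈ s, l ^ k := by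
  let e : s ≃ Fin n := Finset.equivFinOfCardEq hs
  have h' : ∀ i : Fin n, ∃ v : Fin n → kk, v ≠ 0 ∧ T *ᵥ v = ((e.symm i : s) : kk) • v :=
    fun i => h _ (e.symm i).2
  choose v hv hTv using h'
  have hli : LinearIndependent kk v := by
    apply Module.End.eigenvectors_linearIndependent' (Matrix.toLin' T)
      (fun i => ((e.symm i : s) : kk))
    · intro i j hij
      exact e.symm.injective (Subtype.ext hij)
    · intro i
      rw [Module.End.hasEigenvector_iff, Module.End.mem_eigenspace_iff]
      exact ⟨by rw [Matrix.toLin'_apply]; exact hTv i, hv i⟩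
  let P : Mat kk n := (Matrix.of v)ᵀ
  have hP : IsUnit P := by
    rw [← Matrix.linearIndependent_cols_iff_isUnit]
    exact hli
  have hsemi : SemiconjBy P (Matrix.diagonal fun i => ((e.symm i : s) : kk)) T := by
    unfold SemiconjBy
    ext i j
    rw [Matrix.mul_diagonal]
    have := congrFun (hTv j) i
    simp only [Matrix.mulVec, dotProduct, Pi.smul_apply, smul_eq_mul] at this
    rw [Matrix.mul_apply]
    simp only [P, Matrix.transpose_apply, Matrix.of_apply]
    rw [this, mul_comm]
  have hpow := hsemi.pow_right k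
  have hdet : IsUnit P.det := (Matrix.isUnit_iff_isUnit_det P).1 hP
  have h3 : T ^ k = P * (Matrix.diagonal fun i => ((e.symm i : s) : kk)) ^ k * P⁻¹ := by
    rw [hpow.eq, Matrix.mul_assoc, Matrix.mul_nonsing_inv P hdet, Matrix.mul_one]
  rw [h3, Matrix.trace_mul_comm, ← Matrix.mul_assoc, Matrix.nonsing_inv_mul P hdet,
    Matrix.one_mul, Matrix.diagonal_pow, Matrix.trace_diagonal]
  simp only [Pi.pow_apply]
  rw [Equiv.sum_comp e.symm (fun l : s => ((l : kk)) ^ k)]
  exact Finset.sum_coe_sort s (fun l => l ^ k)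

/-- TARGET -/
theorem trace_pow_eq (T T' : Mat kk n) (x x' : Fin n → kk)
    (h : localSpectrum T x = localSpectrum T' x') (hc : (localSpectrum T x).ncard = n) (k : ℕ) :
    trace (T ^ k) = trace (T' ^ k) := by
  obtain ⟨s, hs, -⟩ := exists_ann T x
  have hcard : s.card = n := by
    rw [← hc, ← hs, Set.ncard_coe_finset]
  rw [trace_pow_aux T s hcard (fun l hl => exists_eigvec T x l (by rw [← hs]; exact hl)) k,
    trace_pow_aux T' s hcard (fun l hl => exists_eigvec T' x' l (by rw [← h, ← hs]; exact hl)) k]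

/-- TARGET 1 -/
theorem ncard_of_dlt (C : Mat kk n) (x : Fin n → kk) (h : dlt x C ≠ 0) :
    (localSpectrum C x).ncard = n := by
  classical
  have hH := left_ne_zero_of_mul h
  have hK := right_ne_zero_of_mul h
  obtain ⟨s, hs, hann⟩ := exists_ann C x
  rw [← hs, Set.ncard_coe_finset]
  -- upper bound
  have hup : s.card ≤ n := by
    have hsub : s ⊆ C.charpoly.roots.toFinset := by
      intro m hm
      rw [Multiset.mem_toFinset, Polynomial.mem_roots (Matrix.charpoly_monic C).ne_zero]
      have hm' : m ∈ localSpectrum C x := by rw [← hs]; exact hm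
      exact (mem_localSpectrum_iff C x m).mp hm' C.charpoly
        (by rw [Matrix.aeval_self_charpoly, Matrix.zero_mulVec])
    calc s.card ≤ C.charpoly.roots.toFinset.card := Finset.card_le_card hsub
      _ ≤ Multiset.card C.charpoly.roots := Multiset.toFinset_card_le _
      _ ≤ C.charpoly.natDegree := Polynomial.card_roots' _
      _ = n := by rw [Matrix.charpoly_natDegree_eq_dim, Fintype.card_fin]
  refine le_antisymm hup ?_
  by_contra hlt
  push Not at hlt
  set g : kk[X] := ∏ m ∈ s, (X - Polynomial.C m) with hg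
  have hgn : ∏ m ∈ s, (X - Polynomial.C m) ^ n = g ^ n := by rw [hg, Finset.prod_pow]
  rw [hgn] at hann
  have hgmonic : g.Monic := monic_prod_of_monic _ _ (fun m _ => monic_X_sub_C m)
  have hgdeg : g.natDegree = s.card := by
    rw [hg, natDegree_prod_of_monic _ _ (fun m _ => monic_X_sub_C m)]
    simp
  -- g(C)^n = 0
  set K : Mat kk n := Matrix.of fun i j : Fin n => ((C ^ (j : ℕ)) *ᵥ x) i with hKdef
  have hz : aeval C (g ^ n) * K = 0 := by
    ext i j
    have : (aeval C (g ^ n) * K) i j = ((aeval C (g ^ n)) *ᵥ ((C ^ (j : ℕ)) *ᵥ x)) i := by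
      rw [Matrix.mul_apply, Matrix.mulVec, dotProduct]
      rfl
    rw [this, Matrix.mulVec_mulVec]
    have hcomm : aeval C (g ^ n) * C ^ (j : ℕ) = C ^ (j : ℕ) * aeval C (g ^ n) := by
      have e : C ^ (j : ℕ) = aeval C ((X : kk[X]) ^ (j : ℕ)) := by simp
      rw [e, ← map_mul, ← map_mul, mul_comm]
    rw [hcomm, ← Matrix.mulVec_mulVec, hann, Matrix.mulVec_zero]
    rfl
  have hnil : aeval C (g ^ n) = 0 := by
    have hu : IsUnit K.det := isUnit_iff_ne_zero.mpr hK
    have := congrArg (fun M => M * K⁻¹) hz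
    simp only [Matrix.zero_mul] at this
    rwa [Matrix.mul_assoc, Matrix.mul_nonsing_inv _ hu, Matrix.mul_one] at this
  rw [map_pow] at hnil
  have htr : ∀ i : ℕ, trace (C ^ i * aeval C g) = 0 := by
    intro i
    have hN : IsNilpotent (C ^ i * aeval C g) := by
      have hc : Commute (C ^ i) (aeval C g) := by
        have e : C ^ i = aeval C ((X : kk[X]) ^ i) := by simp
        rw [e]
        unfold Commute SemiconjBy
        rw [← map_mul, ← map_mul, mul_comm]
      exact hc.isNilpotent_mul_left ⟨n, hnil⟩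
    exact (Matrix.isNilpotent_trace_of_isNilpotent hN).eq_zero
  have hvec : (Matrix.of fun i j : Fin n => trace (C ^ ((i : ℕ) + (j : ℕ)))) *ᵥ
      (fun j : Fin n => g.coeff j) = 0 := by
    funext i
    rw [Matrix.mulVec, dotProduct]
    simp only [Matrix.of_apply, Pi.zero_apply]
    have e := htr i
    rw [aeval_eq_sum_range' (n := n) (by rw [hgdeg]; exact hlt), Finset.mul_sum, trace_sum,
      Finset.sum_range] at e
    rw [← e]
    apply Finset.sum_congr rfl
    intro j _
    rw [mul_smul_comm, ← pow_add, trace_smul, smul_eq_mul, mul_comm]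
  have hv0 := Matrix.eq_zero_of_mulVec_eq_zero hH hvec
  have := congrFun hv0 ⟨s.card, hlt⟩
  simp only [Pi.zero_apply] at this
  rw [← hgdeg, hgmonic.coeff_natDegree] at this
  exact one_ne_zero this

section Shift

open Fin.CommRing Fin.NatCast

/-- cyclic shift -/
noncomputable def shf (m : ℕ) : Mat kk (m + 2) := Matrix.of fun i j => if i = j + 1 then 1 else 0

theorem shf_pow (m k : ℕ) : shf m ^ k = Matrix.of fun i j : Fin (m + 2) =>
    if i = j + (k : Fin (m + 2)) then (1 : kk) else 0 := by
  induction k with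
  | zero =>
    ext i j
    simp [Matrix.one_apply]
  | succ k ih =>
    rw [pow_succ, ih]
    ext i j
    rw [Matrix.mul_apply]
    simp only [shf, Matrix.of_apply]
    rw [Finset.sum_eq_single (j + 1)]
    · simp only [if_true, mul_one]
      congr 1
      rw [Nat.cast_succ, add_assoc, add_comm (1 : Fin (m + 2))]
    · intro b _ hb
      rw [if_neg hb, mul_zero]
    · intro hb; exact absurd (Finset.mem_univ _) hb

theorem exists_equiv_apply {V : Type*} [AddCommGroup V] [Module kk V] {e x : V} (he : e ≠ 0)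
    (hx : x ≠ 0) : ∃ A : V ≃ₗ[kk] V, A e = x := by
  obtain ⟨g, hg⟩ := Submodule.exists_linearEquiv_restrict_eq
    ((LinearEquiv.toSpanNonzeroSingleton kk V e he).symm ≪≫ₗ
      LinearEquiv.toSpanNonzeroSingleton kk V x hx)
  refine ⟨g, ?_⟩
  have h1 := hg ⟨e, Submodule.mem_span_singleton_self e⟩
  have h2 : (LinearEquiv.toSpanNonzeroSingleton kk V e he).symm
      ⟨e, Submodule.mem_span_singleton_self e⟩ = 1 := by
    rw [LinearEquiv.symm_apply_eq]
    exact (LinearEquiv.toSpanNonzeroSingleton_one kk V e he).symm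
  rw [LinearEquiv.trans_apply, h2, LinearEquiv.toSpanNonzeroSingleton_one] at h1
  exact h1.symm

theorem exists_dlt_aux (m : ℕ) (x : Fin (m + 2) → kk) (hx : x ≠ 0) :
    ∃ T S : Mat kk (m + 2), dlt x (T * S - S * T) ≠ 0 := by
  classical
  obtain ⟨A, hA⟩ := exists_equiv_apply (kk := kk)
    (V := Fin (m + 2) → kk) (e := Pi.single 0 1) (x := x)
    (fun h => by have := congrFun h 0; simp at this) hx
  set P : Mat kk (m + 2) := LinearMap.toMatrix' (A : (Fin (m + 2) → kk) →ₗ[kk] _) with hP
  set Q : Mat kk (m + 2) := LinearMap.toMatrix' (A.symm : (Fin (m + 2) → kk) →ₗ[kk] _)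
    with hQ
  have hPQ : P * Q = 1 := by
    rw [hP, hQ, ← LinearMap.toMatrix'_comp]
    have : ((A : (Fin (m + 2) → kk) →ₗ[kk] _) ∘ₗ
        (A.symm : (Fin (m + 2) → kk) →ₗ[kk] _)) = LinearMap.id := by
      ext v; simp
    rw [this, LinearMap.toMatrix'_id]
  have hQP : Q * P = 1 := mul_eq_one_comm.mp hPQ
  have hPe : P *ᵥ (Pi.single 0 1) = x := by
    rw [hP, LinearMap.toMatrix'_mulVec]
    exact hA
  have hQx : Q *ᵥ x = Pi.single 0 1 := by
    rw [← hPe, Matrix.mulVec_mulVec, hQP, Matrix.one_mulVec]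
  set Z : Mat kk (m + 2) := shf m with hZ
  set D : Mat kk (m + 2) := Matrix.diagonal fun i => ((i : ℕ) : kk) with hD
  set S : Mat kk (m + 2) := Matrix.of fun i j => Z i j / (((i : ℕ) : kk) - ((j : ℕ) : kk)) with hS
  have hZd : ∀ i, Z i i = 0 := by
    intro i
    rw [hZ]
    simp only [shf, Matrix.of_apply]
    rw [if_neg]
    intro h
    have : (1 : Fin (m + 2)) = 0 := by
      have h2 : i + 0 = i + 1 := by rw [add_zero]; exact h
      exact (add_left_cancel h2).symm
    exact one_ne_zero this
  have hDS : D * S - S * D = Z := by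
    ext i j
    rw [Matrix.sub_apply, hD, Matrix.diagonal_mul, Matrix.mul_diagonal]
    simp only [hS, Matrix.of_apply]
    by_cases hij : i = j
    · subst hij
      rw [hZd]; simp
    · have h0 : ((i : ℕ) : kk) - ((j : ℕ) : kk) ≠ 0 := by
        rw [sub_ne_zero]
        intro h
        exact hij (Fin.ext (by exact_mod_cast h))
      field_simp
  refine ⟨P * D * Q, P * S * Q, ?_⟩
  have hC : P * D * Q * (P * S * Q) - P * S * Q * (P * D * Q) = P * Z * Q := by
    have e1 : P * D * Q * (P * S * Q) = P * (D * (Q * P) * S) * Q := by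
      simp only [Matrix.mul_assoc]
    have e2 : P * S * Q * (P * D * Q) = P * (S * (Q * P) * D) * Q := by
      simp only [Matrix.mul_assoc]
    rw [e1, e2, hQP, Matrix.mul_one, Matrix.mul_one, ← Matrix.sub_mul, ← Matrix.mul_sub, hDS]
  rw [hC]
  have hpow : ∀ k : ℕ, (P * Z * Q) ^ k = P * Z ^ k * Q := by
    intro k
    induction k with
    | zero => rw [pow_zero, pow_zero, Matrix.mul_one, hPQ]
    | succ k ih =>
      rw [pow_succ, ih, pow_succ]
      have : P * Z ^ k * Q * (P * Z * Q) = P * Z ^ k * (Q * P) * Z * Q := by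
        simp only [Matrix.mul_assoc]
      rw [this, hQP, Matrix.mul_one]
      simp only [Matrix.mul_assoc]
  unfold dlt
  apply mul_ne_zero
  · -- Hankel determinant
    set H : Mat kk (m + 2) := Matrix.of fun i j : Fin (m + 2) =>
      trace ((P * Z * Q) ^ ((i : ℕ) + (j : ℕ))) with hH
    have hHij : ∀ i j, H i j = if i + j = 0 then ((m + 2 : ℕ) : kk) else 0 := by
      intro i j
      rw [hH]
      simp only [Matrix.of_apply]
      rw [hpow, Matrix.trace_mul_comm, ← Matrix.mul_assoc, hQP, Matrix.one_mul, hZ, shf_pow,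
        Matrix.trace]
      simp only [Matrix.diag_apply, Matrix.of_apply]
      have : ∀ l : Fin (m + 2), (l = l + (((i : ℕ) + (j : ℕ) : ℕ) : Fin (m + 2))) ↔ i + j = 0 := by
        intro l
        have e : (((i : ℕ) + (j : ℕ) : ℕ) : Fin (m + 2)) = i + j := by
          rw [Nat.cast_add, Fin.cast_val_eq_self, Fin.cast_val_eq_self]
        rw [e]
        constructor
        · intro h
          have h2 : l + 0 = l + (i + j) := by rw [add_zero]; exact h
          exact (add_left_cancel h2).symm
        · intro h; rw [h, add_zero]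
      simp only [this]
      split_ifs with hh
      · simp
      · simp
    have hHH : H * H = ((m + 2 : ℕ) : kk) ^ 2 • (1 : Mat kk (m + 2)) := by
      ext i k
      rw [Matrix.mul_apply, Finset.sum_eq_single (-i)]
      · rw [hHij, hHij, if_pos (add_neg_cancel i), Matrix.smul_apply, Matrix.one_apply,
          smul_eq_mul]
        by_cases hik : i = k
        · subst hik
          rw [if_pos (neg_add_cancel i), if_pos rfl]; ring
        · rw [if_neg, if_neg hik, mul_zero, mul_zero]
          intro h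
          exact hik (neg_add_eq_zero.mp h)
      · intro b _ hb
        rw [hHij, if_neg, zero_mul]
        intro h
        exact hb (neg_eq_of_add_eq_zero_right h).symm
      · intro hb; exact absurd (Finset.mem_univ _) hb
    intro h0
    have := congrArg Matrix.det hHH
    rw [Matrix.det_mul, h0, mul_zero, Matrix.det_smul, Matrix.det_one, mul_one] at this
    have hne : ((m + 2 : ℕ) : kk) ≠ 0 := by exact_mod_cast (Nat.succ_ne_zero (m + 1))
    exact pow_ne_zero _ (pow_ne_zero _ hne) this.symm
  · -- Krylov determinant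
    have : (Matrix.of fun i j : Fin (m + 2) => (((P * Z * Q) ^ (j : ℕ)) *ᵥ x) i) = P := by
      ext i j
      simp only [Matrix.of_apply]
      rw [hpow, ← Matrix.mulVec_mulVec, hQx, ← Matrix.mulVec_mulVec, hZ, shf_pow]
      have e : (Matrix.of fun i j' : Fin (m + 2) =>
          if i = j' + (((j : ℕ) : Fin (m + 2))) then (1 : kk) else 0) *ᵥ (Pi.single 0 1)
          = Pi.single j 1 := by
        funext l
        rw [Matrix.mulVec_single_one]
        simp only [Matrix.col_apply, Matrix.of_apply, zero_add, Fin.cast_val_eq_self,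
          Pi.single_apply]
      rw [e, Matrix.mulVec_single_one]
      rfl
    rw [this]
    intro h0
    have := congrArg Matrix.det hPQ
    rw [Matrix.det_mul, h0, zero_mul, Matrix.det_one] at this
    exact zero_ne_one this

end Shift

/-- TARGET 2 -/
theorem exists_dlt (x : Fin n → kk) (hx : x ≠ 0) :
    ∃ T S : Mat kk n, dlt x (T * S - S * T) ≠ 0 := by
  match n, x, hx with
  | 0, x, hx => exact absurd (Subsingleton.elim x 0) hx
  | 1, x, hx =>
    refine ⟨0, 0, ?_⟩
    have hx0 : x 0 ≠ 0 := by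
      intro h
      apply hx
      funext i
      rw [Subsingleton.elim i 0, h]; rfl
    unfold dlt
    rw [Matrix.det_fin_one, Matrix.det_fin_one]
    simpa using hx0
  | m + 2, x, hx => exact exists_dlt_aux m x hx

theorem cl_single_mul (M : Mat kk n) (i j a b : Fin n) :
    (Matrix.single i j (1 : kk) * M) a b = if a = i then M j b else 0 := by
  by_cases h : a = i
  · subst h
    simp
  · rw [if_neg h]
    rw [Matrix.single_mul_apply_of_ne]
    exact h

theorem cl_mul_single (M : Mat kk n) (i j a b : Fin n) :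
    (M * Matrix.single i j (1 : kk)) a b = if b = j then M a i else 0 := by
  by_cases h : b = j
  · subst h
    simp
  · rw [if_neg h]
    rw [Matrix.mul_single_apply_of_ne]
    exact h

theorem cl_H (F : Mat kk n →ₗ[kk] Mat kk n) (h : ∀ Y, Y * F Y = F Y * Y) (i j k l a b : Fin n) :
    (if a = i then F (Matrix.single k l 1) j b else 0) -
      (if b = j then F (Matrix.single k l 1) a i else 0) +
      (if a = k then F (Matrix.single i j 1) l b else 0) -
      (if b = l then F (Matrix.single i j 1) a k else 0) = 0 := by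
  have h1 := h (Matrix.single i j 1 + Matrix.single k l 1)
  have h2 := h (Matrix.single i j 1)
  have h3 := h (Matrix.single k l 1)
  rw [map_add] at h1
  have h4 : Matrix.single i j 1 * F (Matrix.single k l 1) - F (Matrix.single k l 1) * Matrix.single i j 1
      + Matrix.single k l 1 * F (Matrix.single i j 1) - F (Matrix.single i j 1) * Matrix.single k l 1
      = (0 : Mat kk n) := by
    have h5 : (Matrix.single i j 1 + Matrix.single k l 1) *
        (F (Matrix.single i j 1) + F (Matrix.single k l 1)) -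
        (F (Matrix.single i j 1) + F (Matrix.single k l 1)) *
        (Matrix.single i j 1 + Matrix.single k l 1) = (0 : Mat kk n) := sub_eq_zero.2 h1
    rw [add_mul, mul_add, mul_add, add_mul, mul_add, mul_add, h2, h3] at h5
    rw [← h5]
    abel
  have h6 := congrFun (congrFun h4 a) b
  simp only [Matrix.sub_apply, Matrix.add_apply, cl_single_mul, cl_mul_single,
    Matrix.zero_apply] at h6
  exact h6

/-- entries version -/
theorem cl_entries (x : Fin n → Fin n → Fin n → Fin n → kk)
    (H : ∀ i j k l a b, (if a = i then x k l j b else 0) - (if b = j then x k l a i else 0) +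
      (if a = k then x i j l b else 0) - (if b = l then x i j a k else 0) = 0) :
    ∃ c : kk, ∀ k l, ∃ s : kk, ∀ a b, x k l a b = c * (if a = k ∧ b = l then 1 else 0) +
      s * (if a = b then 1 else 0) := by
  -- diagonal
  have F0 : ∀ k b, b ≠ k → x k k k b = 0 := by
    intro k b hb
    have := H k k k k k b
    simp only [if_true, if_neg hb, sub_zero] at this
    linear_combination this / 2
  have F1 : ∀ k a b, a ≠ b → x k k a b = 0 := by
    intro k a b hab
    have h1 := H a a k k a b
    simp only [if_true, if_neg (Ne.symm hab), sub_zero] at h1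
    by_cases hak : a = k
    · subst hak; exact F0 a b (Ne.symm hab)
    · rw [if_neg hak, add_zero] at h1
      by_cases hbk : b = k
      · subst hbk
        rw [if_pos rfl, F0 a b (Ne.symm hab), sub_zero] at h1
        exact h1
      · rw [if_neg hbk, sub_zero] at h1
        exact h1
  have F2 : ∀ k i j, i ≠ k → j ≠ k → x k k i i = x k k j j := by
    intro k i j hi hj
    by_cases hij : i = j
    · rw [hij]
    have h1 := H i j k k i j
    simp only [if_true, if_neg hi, if_neg hj] at h1
    linear_combination -h1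
  have F3 : ∀ i j a b, i ≠ j → a ≠ b → ¬ (a = i ∧ b = j) → x i j a b = 0 := by
    intro i j a b hij hab hn
    have h1 := H a a i j a b
    simp only [if_true, if_neg (Ne.symm hab), sub_zero] at h1
    by_cases hai : a = i
    · subst hai
      have hbj : b ≠ j := fun h => hn ⟨rfl, h⟩
      rw [if_pos rfl, if_neg hbj, F1 a j b (Ne.symm hbj)] at h1
      linear_combination h1
    · rw [if_neg hai] at h1
      by_cases hbj : b = j
      · subst hbj
        rw [if_pos rfl, F1 a a i hai] at h1
        linear_combination h1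
      · rw [if_neg hbj] at h1
        linear_combination h1
  have F3a : ∀ i j, i ≠ j → x i j i j = x i i i i - x i i j j := by
    intro i j hij
    have h1 := H i i i j i j
    simp only [if_true, if_neg (Ne.symm hij)] at h1
    linear_combination h1
  have F3b : ∀ i j, i ≠ j → x i j i j = x j j j j - x j j i i := by
    intro i j hij
    have h1 := H j j i j i j
    simp only [if_true, if_neg hij] at h1
    linear_combination -h1
  have F4' : ∀ k l i j, k ≠ l → i ≠ j → ¬ (i = k ∧ j = l) → x k l j j = x k l i i := by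
    intro k l i j hkl hij hn
    have h1 := H i j k l i j
    simp only [if_true] at h1
    have e1 : (if i = k then x i j l j else 0) = 0 := by
      split_ifs with h
      · subst h
        refine F3 i j l j hij (fun h2 => hn ⟨rfl, h2.symm⟩) (fun h2 => hkl h2.1.symm)
      · rfl
    have e2 : (if j = l then x i j i k else 0) = 0 := by
      split_ifs with h
      · subst h
        exact F3 i j i k hij (fun h2 => hn ⟨h2, rfl⟩) (fun h2 => hkl h2.2)
      · rfl
    rw [e1, e2] at h1
    linear_combination h1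
  have F4 : ∀ k l i j, k ≠ l → x k l j j = x k l i i := by
    intro k l i j hkl
    by_cases hij : i = j
    · rw [hij]
    by_cases hn : i = k ∧ j = l
    · refine (F4' k l j i hkl (Ne.symm hij) ?_).symm
      rintro ⟨h1, h2⟩
      exact hij (hn.1.trans h1.symm)
    · exact F4' k l i j hkl hij hn
  by_cases hn : ∃ i0 i1 : Fin n, i0 ≠ i1
  · obtain ⟨i0, i1, h01⟩ := hn
    set c := x i0 i0 i0 i0 - x i0 i0 i1 i1 with hc
    have G : ∀ i j, i ≠ j → x i i i i - x i i j j = c := by
      intro i j hij
      by_cases hi : i = i0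
      · subst hi
        rw [F2 i j i1 (Ne.symm hij) (Ne.symm h01)]
      · rw [F2 i j i0 (Ne.symm hij) (fun h => hi h.symm), ← F3a i i0 hi, F3b i i0 hi, hc,
          F2 i0 i i1 hi (Ne.symm h01)]
    refine ⟨c, fun k l => ?_⟩
    by_cases hkl : k = l
    · subst hkl
      obtain ⟨j, hj⟩ : ∃ j, j ≠ k := by
        by_cases h : i0 = k
        · exact ⟨i1, fun h2 => h01 (h.trans h2.symm)⟩
        · exact ⟨i0, h⟩
      refine ⟨x k k j j, fun a b => ?_⟩
      by_cases hab : a = b
      · subst hab
        by_cases hak : a = k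
        · subst hak
          simp only [and_self, if_true]
          linear_combination G a j (Ne.symm hj)
        · simp only [hak, false_and, if_false, if_true]
          rw [F2 k a j hak hj]; ring
      · have : ¬ (a = k ∧ b = k) := fun h => hab (h.1.trans h.2.symm)
        rw [if_neg this, if_neg hab, F1 k a b hab]; ring
    · refine ⟨x k l k k, fun a b => ?_⟩
      by_cases hab : a = b
      · subst hab
        have : ¬ (a = k ∧ a = l) := fun h => hkl (h.1.symm.trans h.2)
        rw [if_neg this, if_pos rfl, F4 k l k a hkl]; ring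
      · rw [if_neg hab]
        by_cases h : a = k ∧ b = l
        · rw [if_pos h, h.1, h.2, F3a k l hkl, G k l hkl]; ring
        · rw [if_neg h, F3 k l a b hkl hab h]; ring
  · push Not at hn
    refine ⟨0, fun k l => ⟨x k l k k, fun a b => ?_⟩⟩
    rw [if_pos (hn a b), hn a k, hn b k]; ring

/-- TARGET 1 -/
theorem commuting_linear (F : Mat kk n →ₗ[kk] Mat kk n) (h : ∀ Y, Y * F Y = F Y * Y) :
    ∃ c : kk, ∀ Y, ∃ s : kk, F Y = c • Y + s • (1 : Mat kk n) := by
  obtain ⟨c, hc⟩ := cl_entries (fun k l a b => F (Matrix.single k l 1) a b) (cl_H F h)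
  choose s hs using hc
  refine ⟨c, fun Y => ⟨∑ k, ∑ l, Y k l * s k l, ?_⟩⟩
  have h1 : ∀ k l, F (Matrix.single k l 1) = c • Matrix.single k l 1 + s k l • (1 : Mat kk n) := by
    intro k l
    ext a b
    have : F (Matrix.single k l 1) a b = c * (if a = k ∧ b = l then 1 else 0) +
      s k l * (if a = b then 1 else 0) := hs k l a b
    rw [this, Matrix.add_apply, Matrix.smul_apply, Matrix.smul_apply, smul_eq_mul, smul_eq_mul,
      Matrix.one_apply, Matrix.single_apply]
    congr 2
    by_cases h2 : a = k ∧ b = l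
    · rw [if_pos h2, if_pos ⟨h2.1.symm, h2.2.symm⟩]
    · rw [if_neg h2, if_neg (fun h3 => h2 ⟨h3.1.symm, h3.2.symm⟩)]
  have h2 : Y = ∑ k, ∑ l, Y k l • Matrix.single k l (1 : kk) := by
    conv_lhs => rw [Matrix.matrix_eq_sum_single Y]
    refine Finset.sum_congr rfl fun k _ => Finset.sum_congr rfl fun l _ => ?_
    rw [Matrix.smul_single, smul_eq_mul, mul_one]
  conv_lhs => rw [h2]
  simp only [map_sum, map_smul, h1, smul_add, Finset.sum_add_distrib]
  congr 1
  · conv_rhs => rw [h2]
    rw [Finset.smul_sum]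
    refine Finset.sum_congr rfl fun k _ => ?_
    rw [Finset.smul_sum]
    refine Finset.sum_congr rfl fun l _ => ?_
    rw [smul_comm]
  · rw [Finset.sum_smul]
    refine Finset.sum_congr rfl fun k _ => ?_
    rw [Finset.sum_smul]
    refine Finset.sum_congr rfl fun l _ => ?_
    rw [smul_smul]

/-- curvature tensors are determined by sectional curvatures -/
theorem curv_abstract {M : Type*} [AddCommGroup M] (Z : M → M → M → M → kk)
    (hadd : ∀ a a' b c d, Z (a + a') b c d = Z a b c d + Z a' b c d)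
    (hanti : ∀ a b c d, Z a b c d = - Z b a c d)
    (hsym : ∀ a b c d, Z a b c d = Z c d a b)
    (hb : ∀ a b c d, Z a b c d + Z b c a d + Z c a b d = 0)
    (hz : ∀ a b, Z a b a b = 0) (a b c d : M) : Z a b c d = 0 := by
  have hadd2 : ∀ a b b' c d, Z a (b + b') c d = Z a b c d + Z a b' c d := by
    intro a b b' c d
    rw [hanti, hadd, hanti a b, hanti a b']; ring
  have hadd3 : ∀ a b c c' d, Z a b (c + c') d = Z a b c d + Z a b c' d := by
    intro a b c c' d
    rw [hsym, hadd, hsym c, hsym c']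
  have hadd4 : ∀ a b c d d', Z a b c (d + d') = Z a b c d + Z a b c d' := by
    intro a b c d d'
    rw [hsym, hadd2, hsym c d, hsym c d']
  have h1 : ∀ a b d, Z a b a d = 0 := by
    intro a b d
    have h := hz a (b + d)
    rw [hadd2, hadd4, hadd4, hz, hz, hsym a d a b] at h
    linear_combination h / 2
  have h2 : ∀ a b c d, Z a b c d = Z b c a d := by
    intro a b c d
    have h := h1 (a + c) b d
    rw [hadd, hadd3, hadd3, h1, h1, hanti c b a d] at h
    linear_combination h
  have h3 := hb a b c d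
  have h4 := h2 a b c d
  have h5 := h2 b c a d
  linear_combination (h3 + 2 * h4 + h5) / 3

theorem curv_bianchi (a b c d : Mat kk n) :
    trace ((a * b - b * a) * (c * d - d * c)) + trace ((b * c - c * b) * (a * d - d * a)) +
      trace ((c * a - a * c) * (b * d - d * b)) = 0 := by
  have key : ∀ m c : Mat kk n, trace (m * (c * d - d * c)) = trace ((m * c - c * m) * d) := by
    intro m c
    rw [mul_sub, trace_sub, sub_mul, trace_sub, ← mul_assoc, ← mul_assoc, trace_mul_comm (m * d) c,
      ← mul_assoc]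
  rw [key, key, key, ← trace_add, ← trace_add]
  have : (a * b - b * a) * c - c * (a * b - b * a) + ((b * c - c * b) * a - a * (b * c - c * b)) +
      ((c * a - a * c) * b - b * (c * a - a * c)) = 0 := by noncomm_ring
  rw [← add_mul, ← add_mul, this, zero_mul, trace_zero]

/-- TARGET 2 -/
theorem curv (L : Mat kk n →ₗ[kk] Mat kk n)
    (h : ∀ T S, trace ((L T * L S - L S * L T) ^ 2) = trace ((T * S - S * T) ^ 2))
    (a b c d : Mat kk n) :
    trace ((L a * L b - L b * L a) * (L c * L d - L d * L c)) =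
      trace ((a * b - b * a) * (c * d - d * c)) := by
  rw [← sub_eq_zero]
  refine curv_abstract (fun a b c d : Mat kk n =>
    trace ((L a * L b - L b * L a) * (L c * L d - L d * L c)) -
      trace ((a * b - b * a) * (c * d - d * c))) ?_ ?_ ?_ ?_ ?_ a b c d
  · intro a a' b c d
    simp only [map_add]
    have e1 : ∀ u v w : Mat kk n, (u + v) * w - w * (u + v) = (u * w - w * u) + (v * w - w * v) := by
      intro u v w; noncomm_ring
    rw [e1, e1, add_mul, add_mul, trace_add, trace_add]
    ring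
  · intro a b c d
    have e1 : ∀ u v : Mat kk n, u * v - v * u = - (v * u - u * v) := by
      intro u v; noncomm_ring
    rw [e1 (L a) (L b), e1 a b, neg_mul, neg_mul, trace_neg, trace_neg]
    ring
  · intro a b c d
    rw [trace_mul_comm, trace_mul_comm (a * b - b * a)]
  · intro a b c d
    have h1 := curv_bianchi a b c d
    have h2 := curv_bianchi (L a) (L b) (L c) (L d)
    linear_combination h2 - h1
  · intro a b
    have := h a b
    rw [← pow_two, ← pow_two, this, sub_self]

theorem stepE1_polar (A B C : Mat kk n) :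
    trace ((A + B + C) ^ 3) - trace ((A + B) ^ 3) - trace ((A + C) ^ 3) - trace ((B + C) ^ 3) +
      trace (A ^ 3) + trace (B ^ 3) + trace (C ^ 3) =
      3 * (trace (A * B * C) + trace (A * C * B)) := by
  have key : (A + B + C) ^ 3 - (A + B) ^ 3 - (A + C) ^ 3 - (B + C) ^ 3 + A ^ 3 + B ^ 3 + C ^ 3 =
      A * B * C + A * C * B + B * A * C + B * C * A + C * A * B + C * B * A := by
    noncomm_ring
  have h := congrArg trace key
  simp only [trace_add, trace_sub] at h
  rw [h]
  have h1 : trace (A * B * C) = trace (C * A * B) := trace_mul_cycle A B C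
  have h2 : trace (C * A * B) = trace (B * C * A) := trace_mul_cycle C A B
  have h3 : trace (A * C * B) = trace (B * A * C) := trace_mul_cycle A C B
  have h4 : trace (B * A * C) = trace (C * B * A) := trace_mul_cycle B A C
  rw [← h4, ← h3, ← h2, ← h1]
  ring

/-- a zero-diagonal matrix is a commutator -/
theorem stepE1_comm (C : Mat kk n) (h : ∀ i, C i i = 0) :
    ∃ D S : Mat kk n, C = D * S - S * D := by
  refine ⟨Matrix.diagonal (fun i : Fin n => ((i : ℕ) : kk)),
    Matrix.of (fun i j => if i = j then 0 else C i j / (((i : ℕ) : kk) - ((j : ℕ) : kk))), ?_⟩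
  ext i j
  rw [Matrix.sub_apply, Matrix.diagonal_mul, Matrix.mul_diagonal, Matrix.of_apply]
  by_cases hij : i = j
  · subst hij
    simp [h]
  · rw [if_neg hij]
    have hne : ((i : ℕ) : kk) - ((j : ℕ) : kk) ≠ 0 := by
      rw [sub_ne_zero]
      intro h'
      exact hij (Fin.ext (Nat.cast_injective h'))
    field_simp

/-- the Krylov matrix -/
noncomputable def stepE1_K (hn : 2 ≤ n) (X : Mat kk n) : Mat kk n :=
  Matrix.of (fun i j => (X ^ (j : ℕ)) i ⟨0, by omega⟩)

theorem stepE1_isComm (hn : 2 ≤ n) (X : Mat kk n) (h0 : trace X = 0)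
    (hK : (stepE1_K hn X).det ≠ 0) : ∃ T S : Mat kk n, X = T * S - S * T := by
  set R := stepE1_K hn X with hR
  have hu : IsUnit R.det := isUnit_iff_ne_zero.2 hK
  set C := R⁻¹ * X * R with hC
  have hRR : R * R⁻¹ = 1 := Matrix.mul_nonsing_inv R hu
  have hRR' : R⁻¹ * R = 1 := Matrix.nonsing_inv_mul R hu
  have hcol : ∀ j : Fin n, (hj : (j : ℕ) + 1 < n) → ∀ i, (X * R) i j = R i ⟨(j : ℕ) + 1, hj⟩ := by
    intro j hj i
    rw [Matrix.mul_apply]
    simp only [hR, stepE1_K, Matrix.of_apply]
    rw [pow_succ', Matrix.mul_apply]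
  have hdiag : ∀ j : Fin n, (j : ℕ) + 1 < n → C j j = 0 := by
    intro j hj
    rw [hC, Matrix.mul_assoc, Matrix.mul_apply]
    simp only [hcol j hj]
    rw [← Matrix.mul_apply, hRR', Matrix.one_apply_ne]
    intro h
    have := congrArg Fin.val h
    simp at this
  have htr : trace C = 0 := by
    rw [hC, Matrix.trace_mul_cycle, hRR, one_mul, h0]
  have hdiag' : ∀ j : Fin n, C j j = 0 := by
    intro j
    by_cases hj : (j : ℕ) + 1 < n
    · exact hdiag j hj
    · have hs : trace C = C j j := by
        unfold Matrix.trace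
        apply Finset.sum_eq_single j
        · intro b _ hb
          apply hdiag b
          have := j.2
          have := b.2
          have : (b : ℕ) ≠ (j : ℕ) := fun h => hb (Fin.ext h)
          omega
        · intro h
          exact absurd (Finset.mem_univ j) h
      rw [← hs, htr]
  obtain ⟨D, S, hDS⟩ := stepE1_comm C hdiag'
  refine ⟨R * D * R⁻¹, R * S * R⁻¹, ?_⟩
  have hX : X = R * C * R⁻¹ := by
    rw [hC]
    calc X = (R * R⁻¹) * X * (R * R⁻¹) := by rw [hRR]; simp
      _ = R * (R⁻¹ * X * R) * R⁻¹ := by simp only [Matrix.mul_assoc]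
  rw [hX, hDS]
  have e1 : R * D * R⁻¹ * (R * S * R⁻¹) = R * (D * S) * R⁻¹ := by
    calc R * D * R⁻¹ * (R * S * R⁻¹) = R * D * (R⁻¹ * R) * S * R⁻¹ := by
          simp only [Matrix.mul_assoc]
      _ = R * (D * S) * R⁻¹ := by rw [hRR']; simp only [Matrix.mul_assoc, Matrix.mul_one]
  have e2 : R * S * R⁻¹ * (R * D * R⁻¹) = R * (S * D) * R⁻¹ := by
    calc R * S * R⁻¹ * (R * D * R⁻¹) = R * S * (R⁻¹ * R) * D * R⁻¹ := by
          simp only [Matrix.mul_assoc]
      _ = R * (S * D) * R⁻¹ := by rw [hRR']; simp only [Matrix.mul_assoc, Matrix.mul_one]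
  rw [e1, e2, Matrix.mul_sub, Matrix.sub_mul]

end Pool.Agent.Y104.LocSpec
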