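import Mathlib
import Pool.Agent.Y104.LocSpec.Proof

set_option autoImplicit false

open Matrix Polynomial

namespace Pool.Agent.Y104.LocSpec

variable {kk : Type*} [Field kk] [IsAlgClosed kk] [CharZero kk] {n : ℕ}

/-- an invertible matrix taking one nonzero vector to another -/
theorem exists_unit_mulVec (x y : Fin n → kk) (hx : x ≠ 0) (hy : y ≠ 0) :
    ∃ B : Mat kk n, IsUnit B ∧ B *ᵥ x = y := by
  obtain ⟨A, hA⟩ := exists_equiv_apply (kk := kk) (V := Fin n → kk) hx hy
  refine ⟨LinearMap.toMatrix' (A : (Fin n → kk) →ₗ[kk] (Fin n → kk)), ?_, ?_⟩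
  · have : LinearMap.toMatrix' (A : (Fin n → kk) →ₗ[kk] (Fin n → kk)) *
        LinearMap.toMatrix' (A.symm : (Fin n → kk) →ₗ[kk] (Fin n → kk)) = 1 := by
      rw [← LinearMap.toMatrix'_comp]
      have h2 : ((A : (Fin n → kk) →ₗ[kk] (Fin n → kk)) ∘ₗ
          (A.symm : (Fin n → kk) →ₗ[kk] (Fin n → kk))) = LinearMap.id := by
        ext v; simp
      rw [h2, LinearMap.toMatrix'_id]
    exact IsUnit.of_mul_eq_one _ this
  · rw [LinearMap.toMatrix'_mulVec]
    exact hA

/-- the two vector form of the characterisation -/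
theorem standardTo_iff (x0 y0 : Fin n → kk) (hx0 : x0 ≠ 0) (φ : Mat kk n → Mat kk n) :
    (∀ T S : Mat kk n,
      localSpectrum (φ T * φ S - φ S * φ T) y0 = localSpectrum (T * S - S * T) x0) ↔
      IsStandardTo x0 y0 φ := by
  by_cases hy0 : y0 = 0
  · subst hy0
    constructor
    · intro h
      exfalso
      have h1 : (0 : kk) ∈ localSpectrum ((0 : Mat kk n) * 0 - 0 * 0) x0 := by
        rw [mem_localSpectrum_iff]
        intro p hp
        by_contra hne
        apply hx0
        have h2 : aeval ((0 : Mat kk n) * 0 - 0 * 0) p = (p.eval 0) • (1 : Mat kk n) := by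
          have h3 : ((0 : Mat kk n) * 0 - 0 * 0) = algebraMap kk (Mat kk n) 0 := by simp
          rw [h3, Polynomial.aeval_algebraMap_apply, Polynomial.coe_aeval_eq_eval,
            Algebra.algebraMap_eq_smul_one]
        rw [h2, Matrix.smul_mulVec, Matrix.one_mulVec] at hp
        exact (smul_eq_zero.1 hp).resolve_left hne
      rw [← h 0 0, mem_localSpectrum_iff] at h1
      have := h1 1 (by rw [Matrix.mulVec_zero])
      simp at this
    · rintro ⟨A, η, ξ, hA, hAx, -⟩
      exfalso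
      apply hx0
      have hd : IsUnit A.det := (Matrix.isUnit_iff_isUnit_det A).1 hA
      have := congrArg (fun v => A⁻¹ *ᵥ v) hAx
      simpa [Matrix.mulVec_mulVec, Matrix.nonsing_inv_mul A hd] using this
  · obtain ⟨B, hB, hBy⟩ := exists_unit_mulVec y0 x0 hy0 hx0
    have hd : IsUnit B.det := (Matrix.isUnit_iff_isUnit_det B).1 hB
    have hB1 : B⁻¹ * B = 1 := Matrix.nonsing_inv_mul B hd
    have hB2 : B * B⁻¹ = 1 := Matrix.mul_nonsing_inv B hd
    have hBx : B⁻¹ *ᵥ x0 = y0 := by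
      rw [← hBy, Matrix.mulVec_mulVec, hB1, Matrix.one_mulVec]
    have hBi : IsUnit B⁻¹ := IsUnit.of_mul_eq_one _ hB1
    have hcomm : ∀ X Y : Mat kk n, (B * X * B⁻¹) * (B * Y * B⁻¹) = B * (X * Y) * B⁻¹ := by
      intro X Y
      calc (B * X * B⁻¹) * (B * Y * B⁻¹) = B * X * (B⁻¹ * B) * Y * B⁻¹ := by
            simp only [mul_assoc]
        _ = B * (X * Y) * B⁻¹ := by rw [hB1]; simp only [mul_assoc, one_mul]
    have hstd := standard_iff x0 hx0 (fun T => B * φ T * B⁻¹)
    have hL : (∀ T S : Mat kk n,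
        localSpectrum (φ T * φ S - φ S * φ T) y0 = localSpectrum (T * S - S * T) x0) ↔
        (∀ T S : Mat kk n,
        localSpectrum ((B * φ T * B⁻¹) * (B * φ S * B⁻¹) - (B * φ S * B⁻¹) * (B * φ T * B⁻¹)) x0 =
          localSpectrum (T * S - S * T) x0) := by
      refine forall_congr' fun T => forall_congr' fun S => ?_
      rw [hcomm, hcomm, ← Matrix.sub_mul, ← Matrix.mul_sub, F_LS_conj B _ hB x0, hBx]
    rw [hL, hstd]
    constructor
    · rintro ⟨A, η, ξ, hA, hAx, h1, h2, h3⟩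
      refine ⟨B⁻¹ * A, η, ξ, hBi.mul hA, ?_, h1, h2, fun T => ?_⟩
      · rw [← Matrix.mulVec_mulVec, hAx, hBx]
      · have h4 : φ T = B⁻¹ * (B * φ T * B⁻¹) * B := by
          calc φ T = (B⁻¹ * B) * φ T * (B⁻¹ * B) := by rw [hB1]; simp
            _ = B⁻¹ * (B * φ T * B⁻¹) * B := by simp only [mul_assoc]
        have h5 : (B⁻¹ * A)⁻¹ = A⁻¹ * B := by
          rw [Matrix.mul_inv_rev, Matrix.nonsing_inv_nonsing_inv B hd]
        have h6 : B * φ T * B⁻¹ = ξ T • (A * T * A⁻¹) + η T • (1 : Mat kk n) := h3 T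
        rw [h4, h6, h5, Matrix.mul_add, Matrix.add_mul, mul_smul_comm, smul_mul_assoc,
          mul_smul_comm, smul_mul_assoc, mul_one, hB1]
        simp only [mul_assoc]
    · rintro ⟨A, η, ξ, hA, hAx, h1, h2, h3⟩
      refine ⟨B * A, η, ξ, hB.mul hA, ?_, h1, h2, fun T => ?_⟩
      · rw [← Matrix.mulVec_mulVec, hAx, hBy]
      · have h5 : (B * A)⁻¹ = A⁻¹ * B⁻¹ := Matrix.mul_inv_rev B A
        show B * φ T * B⁻¹ = _
        rw [h3 T, h5, Matrix.mul_add, Matrix.add_mul, mul_smul_comm, smul_mul_assoc,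
          mul_smul_comm, smul_mul_assoc, mul_one, hB2]
        simp only [mul_assoc]

/-- a square zero matrix is moved to itself up to sign -/
theorem sqzero_comm (B : Mat kk n) (hB : IsUnit B) (T : Mat kk n) (hT : T * T = 0)
    (hT0 : T ≠ 0) (e c : kk) (he : e = 1 ∨ e = -1) (h : B * T = e • (T * B) + c • B) :
    B * T = e • (T * B) := by
  have hd : IsUnit B.det := (Matrix.isUnit_iff_isUnit_det B).1 hB
  have h0 : B * T * T = 0 := by rw [mul_assoc, hT, mul_zero]
  have h1 : (2 * e * c) • (T * B) + (c * c) • B = 0 := by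
    have : B * T * T = (2 * e * c) • (T * B) + (c * c) • B := by
      calc B * T * T = (e • (T * B) + c • B) * T := by rw [h]
        _ = e • (T * (B * T)) + c • (B * T) := by
            rw [Matrix.add_mul, smul_mul_assoc, smul_mul_assoc, mul_assoc]
        _ = e • (T * (e • (T * B) + c • B)) + c • (e • (T * B) + c • B) := by rw [h]
        _ = (e * e) • (T * T * B) + (2 * e * c) • (T * B) + (c * c) • B := by
            rw [Matrix.mul_add, mul_smul_comm, mul_smul_comm, ← mul_assoc]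
            module
        _ = (2 * e * c) • (T * B) + (c * c) • B := by rw [hT, zero_mul, smul_zero, zero_add]
    rw [← this, h0]
  have h2 : (2 * e * c) • T + (c * c) • (1 : Mat kk n) = 0 := by
    have h3 := congrArg (fun X => X * B⁻¹) h1
    simp only [Matrix.add_mul, smul_mul_assoc, mul_assoc, Matrix.mul_nonsing_inv B hd, mul_one,
      zero_mul] at h3
    simpa only [mul_assoc] using h3
  have h3 : (c * c) • T = 0 := by
    have h4 := congrArg (fun X => X * T) h2
    simp only [Matrix.add_mul, smul_mul_assoc, hT, smul_zero, zero_add, one_mul, zero_mul] at h4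
    exact h4
  have hc : c = 0 := by
    rcases smul_eq_zero.1 h3 with h5 | h5
    · exact mul_self_eq_zero.1 h5
    · exact absurd h5 hT0
  rw [h, hc, zero_smul, add_zero]

/-- a matrix which moves every nonscalar matrix to itself up to sign and scalars is scalar -/
theorem scalar_of_comm (hn : 2 ≤ n) (B : Mat kk n) (hB : IsUnit B) (e c : Mat kk n → kk)
    (he : ∀ T, e T = 1 ∨ e T = -1)
    (h' : ∀ T : Mat kk n, (¬ ∃ a : kk, T = a • (1 : Mat kk n)) →
      B * T = e T • (T * B) + c T • B) :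
    ∃ b : kk, B = b • (1 : Mat kk n) := by
  classical
  have h : ∀ T : Mat kk n, T * T = 0 → T ≠ 0 → B * T = e T • (T * B) + c T • B := by
    intro T hT hT0
    apply h'
    rintro ⟨a, rfl⟩
    have hone : Nonempty (Fin n) := ⟨⟨0, by omega⟩⟩
    rw [smul_mul_smul_comm, mul_one] at hT
    rcases smul_eq_zero.1 hT with h1 | h1
    · exact hT0 (by rw [mul_self_eq_zero.1 h1, zero_smul])
    · exact one_ne_zero h1
  -- off diagonal entries vanish
  have hoff : ∀ i j : Fin n, i ≠ j → ∀ k, k ≠ i → B k i = 0 := by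
    intro i j hij k hki
    have hT : (Matrix.single i j (1 : kk)) * (Matrix.single i j (1 : kk)) = (0 : Mat kk n) := by
      rw [Matrix.single_mul_single_of_ne]
      exact hij.symm
    have hT0 : (Matrix.single i j (1 : kk)) ≠ (0 : Mat kk n) := by
      intro h0
      have := congrFun (congrFun h0 i) j
      simp at this
    have h1 := sqzero_comm B hB _ hT hT0 _ _ (he _) (h _ hT hT0)
    have h2 := congrFun (congrFun h1 k) j
    rw [Matrix.smul_apply, Matrix.mul_single_apply_same, Matrix.single_mul_apply_of_ne _ _ _ _ _ hki] at h2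
    simpa using h2
  have hother : ∀ i : Fin n, ∃ j : Fin n, i ≠ j := by
    intro i
    by_cases hi : i = ⟨0, by omega⟩
    · exact ⟨⟨1, by omega⟩, by rw [hi]; intro h0; simp at h0⟩
    · exact ⟨⟨0, by omega⟩, hi⟩
  have hdiag : ∀ k i : Fin n, k ≠ i → B k i = 0 := by
    intro k i hki
    obtain ⟨j, hj⟩ := hother i
    exact hoff i j hj k hki
  have hBd : B = Matrix.diagonal fun i => B i i := by
    ext k i
    by_cases hki : k = i
    · subst hki; simp
    · rw [hdiag k i hki, Matrix.diagonal_apply_ne _ hki]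
  have hBne : ∀ i, B i i ≠ 0 := by
    intro i hi
    have hd : IsUnit B.det := (Matrix.isUnit_iff_isUnit_det B).1 hB
    rw [hBd, Matrix.det_diagonal] at hd
    exact hd.ne_zero (Finset.prod_eq_zero (Finset.mem_univ i) hi)
  have heq : ∀ i j : Fin n, i ≠ j → B i i = B j j := by
    intro i j hij
    set T : Mat kk n := Matrix.vecMulVec (Pi.single i 1 + Pi.single j 1 : Fin n → kk)
      (Pi.single i 1 - Pi.single j 1 : Fin n → kk) with hTdef
    have hTij : ∀ k l, T k l = ((Pi.single i 1 : Fin n → kk) k + (Pi.single j 1 : Fin n → kk) k) *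
        ((Pi.single i 1 : Fin n → kk) l - (Pi.single j 1 : Fin n → kk) l) := by
      intro k l
      rw [hTdef, Matrix.vecMulVec_apply]
      rfl
    have hii : T i i = 1 := by
      rw [hTij]; simp [hij, Ne.symm hij]
    have hijv : T i j = -1 := by
      rw [hTij]; simp [hij, Ne.symm hij]
    have hT0 : T ≠ 0 := by
      intro h0
      rw [h0] at hii
      simp at hii
    have hT : T * T = 0 := by
      rw [hTdef, Matrix.vecMulVec_mul_vecMulVec]
      have : (Pi.single i 1 - Pi.single j 1 : Fin n → kk) ⬝ᵥ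
          (Pi.single i 1 + Pi.single j 1 : Fin n → kk) = 0 := by
        simp [sub_dotProduct, hij, Ne.symm hij]
      rw [this]
      simp
    have h1 := sqzero_comm B hB _ hT hT0 _ _ (he _) (h _ hT hT0)
    have h2 := congrFun (congrFun h1 i) i
    have h3 := congrFun (congrFun h1 i) j
    rw [hBd] at h2 h3
    rw [Matrix.smul_apply, Matrix.diagonal_mul, Matrix.mul_diagonal, hii] at h2
    rw [Matrix.smul_apply, Matrix.diagonal_mul, Matrix.mul_diagonal, hijv] at h3
    have he1 : e T = 1 := by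
      rcases he T with h4 | h4
      · exact h4
      · exfalso
        rw [h4] at h2
        have h5 : (2 : kk) * B i i = 0 := by
          simp only [mul_one, one_mul, smul_eq_mul, neg_mul] at h2
          linear_combination h2
        rcases mul_eq_zero.1 h5 with h6 | h6
        · exact two_ne_zero h6
        · exact hBne i h6
    rw [he1] at h3
    simp only [smul_eq_mul] at h3
    linear_combination -h3
  refine ⟨B ⟨0, by omega⟩ ⟨0, by omega⟩, ?_⟩
  ext k l
  by_cases hkl : k = l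
  · subst hkl
    rw [Matrix.smul_apply, Matrix.one_apply_eq, smul_eq_mul, mul_one]
    by_cases hk : k = ⟨0, by omega⟩
    · rw [hk]
    · exact heq k _ hk
  · rw [hdiag k l hkl, Matrix.smul_apply, Matrix.one_apply_ne hkl, smul_zero]

/-- uniqueness of the standard form for sizes at least two -/
theorem standardTo_unique (hn : 2 ≤ n) (x0 y0 : Fin n → kk) (hx0 : x0 ≠ 0) (A A' : Mat kk n)
    (η η' ξ ξ' : Mat kk n → kk) (hA : IsUnit A) (hA' : IsUnit A') (hAx : A *ᵥ x0 = y0)
    (hAx' : A' *ᵥ x0 = y0) (hξ : ∀ T, ξ T = 1 ∨ ξ T = -1) (hξ' : ∀ T, ξ' T = 1 ∨ ξ' T = -1)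
    (h : ∀ T : Mat kk n, (¬ ∃ c : kk, T = c • (1 : Mat kk n)) →
      ξ T • (A * T * A⁻¹) + η T • (1 : Mat kk n) =
      ξ' T • (A' * T * A'⁻¹) + η' T • (1 : Mat kk n)) :
    A = A' ∧ ∀ T : Mat kk n, (¬ ∃ c : kk, T = c • (1 : Mat kk n)) → ξ T = ξ' T ∧ η T = η' T := by
  have hd : IsUnit A.det := (Matrix.isUnit_iff_isUnit_det A).1 hA
  have hd' : IsUnit A'.det := (Matrix.isUnit_iff_isUnit_det A').1 hA'
  have a1 : A⁻¹ * A = 1 := Matrix.nonsing_inv_mul A hd
  have a2 : A * A⁻¹ = 1 := Matrix.mul_nonsing_inv A hd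
  have b1 : A'⁻¹ * A' = 1 := Matrix.nonsing_inv_mul A' hd'
  have b2 : A' * A'⁻¹ = 1 := Matrix.mul_nonsing_inv A' hd'
  have hB : IsUnit (A'⁻¹ * A) := (IsUnit.of_mul_eq_one _ b1).mul hA
  have hBT : ∀ T : Mat kk n, (¬ ∃ c : kk, T = c • (1 : Mat kk n)) → (A'⁻¹ * A) * T =
      (ξ T * ξ' T) • (T * (A'⁻¹ * A)) + (ξ T * (η' T - η T)) • (A'⁻¹ * A) := by
    intro T hTn
    have h1 := congrArg (fun X => A'⁻¹ * X * A) (h T hTn)
    simp only [Matrix.mul_add, Matrix.add_mul, mul_smul_comm, smul_mul_assoc, mul_one] at h1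
    have e1 : A'⁻¹ * (A * T * A⁻¹) * A = (A'⁻¹ * A) * T := by
      calc A'⁻¹ * (A * T * A⁻¹) * A = A'⁻¹ * A * T * (A⁻¹ * A) := by simp only [mul_assoc]
        _ = (A'⁻¹ * A) * T := by rw [a1, mul_one]
    have e2 : A'⁻¹ * (A' * T * A'⁻¹) * A = T * (A'⁻¹ * A) := by
      calc A'⁻¹ * (A' * T * A'⁻¹) * A = (A'⁻¹ * A') * T * (A'⁻¹ * A) := by simp only [mul_assoc]
        _ = T * (A'⁻¹ * A) := by rw [b1, one_mul]
    rw [e1, e2] at h1
    have hs : ξ T * ξ T = 1 := by
      rcases hξ T with h2 | h2 <;> rw [h2] <;> ring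
    calc (A'⁻¹ * A) * T = (ξ T * ξ T) • ((A'⁻¹ * A) * T) := by rw [hs, one_smul]
      _ = ξ T • (ξ T • ((A'⁻¹ * A) * T) + η T • (A'⁻¹ * A)) - (ξ T * η T) • (A'⁻¹ * A) := by
          module
      _ = ξ T • (ξ' T • (T * (A'⁻¹ * A)) + η' T • (A'⁻¹ * A)) -
          (ξ T * η T) • (A'⁻¹ * A) := by rw [h1]
      _ = _ := by module
  have he : ∀ T, ξ T * ξ' T = 1 ∨ ξ T * ξ' T = -1 := by
    intro T
    rcases hξ T with h1 | h1 <;> rcases hξ' T with h2 | h2 <;> rw [h1, h2] <;> simp
  obtain ⟨b, hb⟩ := scalar_of_comm hn (A'⁻¹ * A) hB _ _ he hBT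
  have hb1 : b = 1 := by
    have h1 : (A'⁻¹ * A) *ᵥ x0 = x0 := by
      rw [← Matrix.mulVec_mulVec, hAx, ← hAx', Matrix.mulVec_mulVec, b1, Matrix.one_mulVec]
    rw [hb, Matrix.smul_mulVec, Matrix.one_mulVec] at h1
    have h2 : (b - 1) • x0 = 0 := by rw [sub_smul, one_smul, h1, sub_self]
    rcases smul_eq_zero.1 h2 with h3 | h3
    · exact sub_eq_zero.1 h3
    · exact absurd h3 hx0
  have hAA : A = A' := by
    rw [hb1, one_smul] at hb
    calc A = (A' * A'⁻¹) * A := by rw [b2, one_mul]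
      _ = A' * (A'⁻¹ * A) := by rw [mul_assoc]
      _ = A' := by rw [hb, mul_one]
  refine ⟨hAA, fun T hT => ?_⟩
  have h1 := hBT T hT
  rw [hb, hb1, one_smul, one_mul, mul_one] at h1
  have hn0 : (1 : Mat kk n) ≠ 0 := by
    have : Nonempty (Fin n) := ⟨⟨0, by omega⟩⟩
    exact one_ne_zero
  have h2 : (1 - ξ T * ξ' T) • T = (ξ T * (η' T - η T)) • (1 : Mat kk n) := by
    rw [sub_smul, one_smul]
    exact sub_eq_iff_eq_add'.2 h1
  have hone : ξ T * ξ' T = 1 := by
    by_contra hne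
    apply hT
    have h3 : (1 - ξ T * ξ' T) ≠ 0 := fun h4 => hne (sub_eq_zero.1 h4).symm
    refine ⟨(1 - ξ T * ξ' T)⁻¹ * (ξ T * (η' T - η T)), ?_⟩
    rw [mul_smul, ← h2, smul_smul, inv_mul_cancel₀ h3, one_smul]
  have hz : ξ T * (η' T - η T) = 0 := by
    rw [hone, sub_self, zero_smul] at h2
    exact (smul_eq_zero.1 h2.symm).resolve_right hn0
  have hξ0 : ξ T ≠ 0 := by
    rcases hξ T with h3 | h3 <;> rw [h3] <;> simp
  constructor
  · rcases hξ T with h3 | h3 <;> rcases hξ' T with h4 | h4 <;> rw [h3, h4] at hone ⊢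
    · exfalso
      have h5 : (2 : kk) = 0 := by linear_combination -hone
      exact two_ne_zero h5
    · exfalso
      have h5 : (2 : kk) = 0 := by linear_combination -hone
      exact two_ne_zero h5
  · exact (sub_eq_zero.1 ((mul_eq_zero.1 hz).resolve_left hξ0)).symm

end Pool.Agent.Y104.LocSpec
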