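import Mathlib
import Pool.Agent.Y104.LocSpec.Proof
import Pool.Agent.Y104.LocSpec.TwoVec

set_option autoImplicit false

open Matrix Polynomial

namespace Pool.Agent.Y104.LocSpec

variable {kk : Type*} [Field kk] [IsAlgClosed kk] [CharZero kk] {n : ℕ}

/-- every nonzero local eigenvalue of `C` at `x` is a local eigenvalue of `C'` at `x'` -/
def Sub0 (C : Mat kk n) (x : Fin n → kk) (C' : Mat kk n) (x' : Fin n → kk) : Prop :=
  ∀ l ∈ localSpectrum C x, l ≠ 0 → l ∈ localSpectrum C' x'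

theorem zero_of_mem_zero (x : Fin n → kk) (l : kk) (h : l ∈ localSpectrum (0 : Mat kk n) x) :
    l = 0 := by
  rw [mem_localSpectrum_iff] at h
  have := h X (by rw [aeval_X, Matrix.zero_mulVec])
  simpa using this

theorem sub0_zero (x : Fin n → kk) (C' : Mat kk n) (x' : Fin n → kk) :
    Sub0 (0 : Mat kk n) x C' x' := fun l hl hl0 => absurd (zero_of_mem_zero x l hl) hl0

theorem trace_pow_eq_of_sub0 (T T' : Mat kk n) (x x' : Fin n → kk) (h : Sub0 T x T' x')
    (hc : (localSpectrum T x).ncard = n) (h0 : T.det ≠ 0) (k : ℕ) :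
    trace (T ^ k) = trace (T' ^ k) := by
  obtain ⟨s, hs, -⟩ := exists_ann T x
  have hcard : s.card = n := by
    rw [← hc, ← hs, Set.ncard_coe_finset]
  have hne : ∀ l ∈ s, l ≠ 0 := by
    rintro l hl rfl
    obtain ⟨v, hv, hTv⟩ := exists_eigvec T x 0 (by rw [← hs]; exact hl)
    rw [zero_smul] at hTv
    exact h0 (Matrix.exists_mulVec_eq_zero_iff.1 ⟨v, hv, hTv⟩)
  rw [trace_pow_aux T s hcard (fun l hl => exists_eigvec T x l (by rw [← hs]; exact hl)) k,
    trace_pow_aux T' s hcard (fun l hl => exists_eigvec T' x' l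
      (h l (by rw [← hs]; exact hl) (hne l hl))) k]

/-- there are matrices with invertible commutator -/
theorem exists_det_comm (hn : 2 ≤ n) : ∃ T S : Mat kk n, (T * S - S * T).det ≠ 0 := by
  obtain ⟨m, rfl⟩ : ∃ m, n = m + 2 := ⟨n - 2, by omega⟩
  obtain ⟨D, S, hDS⟩ := stepE1_comm ((finRotate (m + 2)).permMatrix kk) (by
    intro i
    rw [Equiv.Perm.permMatrix, PEquiv.toMatrix_apply, if_neg]
    simp only [Equiv.toPEquiv_apply, Option.mem_def, Option.some.injEq]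
    rw [finRotate_apply]
    intro h
    have h2 : i + 1 = i + 0 := by rw [add_zero]; exact h
    exact one_ne_zero (add_left_cancel h2))
  refine ⟨D, S, ?_⟩
  rw [← hDS, Matrix.det_permutation]
  rcases Int.units_eq_one_or (Equiv.Perm.sign (finRotate (m + 2))) with h | h <;> rw [h] <;> simp

/-- closedness for the one sided condition -/
theorem closed1n (T T' : Mat kk n) (x0 : Fin n → kk)
    (G : Mat kk n → kk) (hG : PL G) (hG0 : ∃ S, G S ≠ 0) (A : Mat kk n) (hA : IsUnit A)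
    (N : Mat kk n → Mat kk n) (hN : (∀ Y, N Y = A * Y * A⁻¹) ∨ (∀ Y, N Y = A * Yᵀ * A⁻¹))
    (h : ∀ S, G S ≠ 0 →
      Sub0 (T * S - S * T) x0 (N (T' * S - S * T')) x0 ∨
      Sub0 (T * S - S * T) x0 (-N (T' * S - S * T')) x0) (S : Mat kk n) :
    (aeval (T * S - S * T)
      ((X * ((T' * S - S * T').charpoly * (-(T' * S - S * T')).charpoly)) ^ n)) *ᵥ x0 = 0 := by
  obtain ⟨hN1, hN2⟩ := N_facts A hA N hN
  have hid : PLM (fun S : Mat kk n => S) := fun i j => PL.lin (Matrix.entryLinearMap kk kk i j)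
  have hC : ∀ Z : Mat kk n, PLM (fun S : Mat kk n => Z * S - S * Z) := fun Z =>
    ((PLM.const Z).mul hid).sub (hid.mul (PLM.const Z))
  have hCn : PLM (fun S : Mat kk n => -(T' * S - S * T')) := by
    have := (PLM.const (E := Mat kk n) (0 : Mat kk n)).sub (hC T')
    simpa using this
  funext i
  refine PL.eq_zero (F := fun S : Mat kk n => ((aeval (T * S - S * T)
    ((X * ((T' * S - S * T').charpoly * (-(T' * S - S * T')).charpoly)) ^ n)) *ᵥ x0) i)
    ?_ hG hG0 ?_ S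
  · exact PLM.mulVec (PLP.aevalM (hC T) (((PLP.const X).mul
      ((PLP.charpoly (hC T')).mul (PLP.charpoly hCn))).pow n)) x0 i
  · intro S hS
    have key := ann_of_roots (T * S - S * T) x0
      (X * ((T' * S - S * T').charpoly * (-(T' * S - S * T')).charpoly)) (by
      intro l hl
      rw [eval_mul, eval_mul, eval_X]
      by_cases hl0 : l = 0
      · rw [hl0, zero_mul]
      rcases h S hS with h1 | h1
      · have := root_of_mem _ _ _ (h1 l hl hl0)
        rw [hN1] at this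
        rw [this, zero_mul, mul_zero]
      · have := root_of_mem _ _ _ (h1 l hl hl0)
        rw [hN2, hN1] at this
        rw [this, mul_zero, mul_zero])
    exact congrFun key i

/-- the step for one matrix, one sided form -/
theorem stepGn (hn : 2 ≤ n) (T T' : Mat kk n) (x0 : Fin n → kk) (hx0 : x0 ≠ 0)
    (G : Mat kk n → kk) (hG : PL G) (hG0 : ∃ S, G S ≠ 0) (A : Mat kk n) (hA : IsUnit A)
    (N : Mat kk n → Mat kk n) (hN : (∀ Y, N Y = A * Y * A⁻¹) ∨ (∀ Y, N Y = A * Yᵀ * A⁻¹))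
    (h : ∀ S, G S ≠ 0 →
      Sub0 (T * S - S * T) x0 (N (T' * S - S * T')) x0 ∨
      Sub0 (T * S - S * T) x0 (-N (T' * S - S * T')) x0) :
    (∃ s : kk, T = s • (1 : Mat kk n)) ∨
      ∃ s : kk, T' = T + s • (1 : Mat kk n) ∨ T' = -T + s • (1 : Mat kk n) := by
  have hcl1 := closed1n T T' x0 G hG hG0 A hA N hN h
  -- pointwise facts
  have f1 : ∀ u f : Fin n → kk, f ⬝ᵥ u = 0 → f ⬝ᵥ x0 ≠ 0 →
      (f ⬝ᵥ (T *ᵥ u) = 0 ∨ (f ⬝ᵥ (T *ᵥ u)) ^ 2 = (f ⬝ᵥ (T' *ᵥ u)) ^ 2) := by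
    intro u f hfu hfx
    have h1 := eval_zero_of_row _ f x0 _ (row_comm T u f hfu) _ (hcl1 (vecMulVec u f)) hfx
    rw [eval_pow, eval_mul, eval_mul, eval_X] at h1
    rcases mul_eq_zero.1 (pow_eq_zero_iff (by omega) |>.1 h1) with h2 | h2
    · exact Or.inl h2
    rcases mul_eq_zero.1 h2 with h2 | h2
    · exact eig_rank_two T' u f hfu _ h2
    · exact eig_rank_two' T' u f hfu _ h2
  have hskew : ∀ (u : Fin n → kk) (K : Mat kk n), ((K - Kᵀ) *ᵥ u) ⬝ᵥ u = 0 := by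
    intro u K
    rw [Matrix.sub_mulVec, sub_dotProduct, Matrix.mulVec_transpose, ← Matrix.dotProduct_mulVec,
      dotProduct_comm, sub_self]
  have hPLu : ∀ i, PL (fun p : (Fin n → kk) × Mat kk n => p.1 i) := fun i =>
    PL.lin ((LinearMap.proj i).comp (LinearMap.fst kk (Fin n → kk) (Mat kk n)))
  have hPLK : ∀ i j, PL (fun p : (Fin n → kk) × Mat kk n => (p.2 - p.2ᵀ) i j) := fun i j =>
    (PL.lin ((Matrix.entryLinearMap kk kk i j).comp (LinearMap.snd kk (Fin n → kk) (Mat kk n)))).sub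
      (PL.lin ((Matrix.entryLinearMap kk kk j i).comp (LinearMap.snd kk (Fin n → kk) (Mat kk n))))
  have hPLf : ∀ i, PL (fun p : (Fin n → kk) × Mat kk n => ((p.2 - p.2ᵀ) *ᵥ p.1) i) := by
    intro i
    simp only [Matrix.mulVec, dotProduct]
    exact PL.sum _ fun k _ => (hPLK i k).mul (hPLu k)
  have hPLZ : ∀ (Z : Mat kk n) (i : Fin n), PL (fun p : (Fin n → kk) × Mat kk n => (Z *ᵥ p.1) i) := by
    intro Z i
    simp only [Matrix.mulVec, dotProduct]
    exact PL.sum _ fun k _ => (PL.const _).mul (hPLu k)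
  have hPLF : ∀ Z : Mat kk n, PL (fun p : (Fin n → kk) × Mat kk n =>
      ((p.2 - p.2ᵀ) *ᵥ p.1) ⬝ᵥ (Z *ᵥ p.1)) := by
    intro Z
    simp only [dotProduct]
    exact PL.sum _ fun k _ => (hPLf k).mul (hPLZ Z k)
  have hPLc : ∀ z : Fin n → kk, PL (fun p : (Fin n → kk) × Mat kk n =>
      ((p.2 - p.2ᵀ) *ᵥ p.1) ⬝ᵥ z) := by
    intro z
    simp only [dotProduct]
    exact PL.sum _ fun k _ => (hPLf k).mul (PL.const _)
  have hnz : ∀ z : Fin n → kk, z ≠ 0 → ∃ p : (Fin n → kk) × Mat kk n,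
      ((p.2 - p.2ᵀ) *ᵥ p.1) ⬝ᵥ z ≠ 0 := by
    intro z hz
    obtain ⟨k, hk⟩ := Function.ne_iff.1 hz
    obtain ⟨j, hj⟩ : ∃ j : Fin n, j ≠ k := by
      have : Nontrivial (Fin n) := Fin.nontrivial_iff_two_le.2 hn
      exact exists_ne k
    obtain ⟨K, hK⟩ := exists_skew (Pi.single j (1 : kk)) (Pi.single k 1)
      (by simp) (by simp [hj])
    refine ⟨(Pi.single j 1, K), ?_⟩
    simp only [hK]
    simpa using hk
  have hprod : ∀ p : (Fin n → kk) × Mat kk n,
      (((p.2 - p.2ᵀ) *ᵥ p.1) ⬝ᵥ (T *ᵥ p.1)) *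
      ((((p.2 - p.2ᵀ) *ᵥ p.1) ⬝ᵥ ((T - T') *ᵥ p.1)) *
        (((p.2 - p.2ᵀ) *ᵥ p.1) ⬝ᵥ ((T + T') *ᵥ p.1))) = 0 := by
    intro p
    refine PL.eq_zero (F := fun p : (Fin n → kk) × Mat kk n =>
      (((p.2 - p.2ᵀ) *ᵥ p.1) ⬝ᵥ (T *ᵥ p.1)) *
      ((((p.2 - p.2ᵀ) *ᵥ p.1) ⬝ᵥ ((T - T') *ᵥ p.1)) *
        (((p.2 - p.2ᵀ) *ᵥ p.1) ⬝ᵥ ((T + T') *ᵥ p.1))))
      ((hPLF T).mul ((hPLF (T - T')).mul (hPLF (T + T'))))
      (G := fun p : (Fin n → kk) × Mat kk n => ((p.2 - p.2ᵀ) *ᵥ p.1) ⬝ᵥ x0)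
      (hPLc x0) (hnz x0 hx0) ?_ p
    intro q hq
    show (((q.2 - q.2ᵀ) *ᵥ q.1) ⬝ᵥ (T *ᵥ q.1)) *
      ((((q.2 - q.2ᵀ) *ᵥ q.1) ⬝ᵥ ((T - T') *ᵥ q.1)) *
        (((q.2 - q.2ᵀ) *ᵥ q.1) ⬝ᵥ ((T + T') *ᵥ q.1))) = 0
    have e2 := f1 q.1 ((q.2 - q.2ᵀ) *ᵥ q.1) (hskew q.1 q.2) hq
    rw [Matrix.sub_mulVec T T', Matrix.add_mulVec, dotProduct_sub, dotProduct_add]
    rcases e2 with e2 | e2
    · rw [e2, zero_mul]
    · linear_combination (((q.2 - q.2ᵀ) *ᵥ q.1) ⬝ᵥ (T *ᵥ q.1)) * e2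
  have hone : (∀ p : (Fin n → kk) × Mat kk n,
      ((p.2 - p.2ᵀ) *ᵥ p.1) ⬝ᵥ (T *ᵥ p.1) = 0) ∨ (∀ p : (Fin n → kk) × Mat kk n,
      ((p.2 - p.2ᵀ) *ᵥ p.1) ⬝ᵥ ((T - T') *ᵥ p.1) = 0) ∨ (∀ p : (Fin n → kk) × Mat kk n,
      ((p.2 - p.2ᵀ) *ᵥ p.1) ⬝ᵥ ((T + T') *ᵥ p.1) = 0) := by
    by_contra hcon
    rw [not_or, not_or] at hcon
    push Not at hcon
    obtain ⟨h0, h1, h2⟩ := hcon
    obtain ⟨q, hq1, hq2⟩ := PL.two (hPLF (T - T')) (hPLF (T + T')) h1 h2
    obtain ⟨r, hr1, hr2⟩ := PL.two (hPLF T) ((hPLF (T - T')).mul (hPLF (T + T'))) h0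
      ⟨q, mul_ne_zero hq1 hq2⟩
    exact mul_ne_zero hr1 hr2 (hprod r)
  have hfin : ∀ Z : Mat kk n, (∀ p : (Fin n → kk) × Mat kk n,
      ((p.2 - p.2ᵀ) *ᵥ p.1) ⬝ᵥ (Z *ᵥ p.1) = 0) → ∃ s : kk, Z = s • (1 : Mat kk n) := by
    intro Z hZ
    refine scalar_of_forms Z hn ?_
    intro u f hfu
    by_cases hu : u = 0
    · rw [hu]; simp
    obtain ⟨K, hK⟩ := exists_skew u f hu hfu
    have := hZ (u, K)
    simpa only [hK] using this
  rcases hone with h0 | h1 | h1
  · exact Or.inl (hfin _ h0)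
  · obtain ⟨s, hs⟩ := hfin _ h1
    refine Or.inr ⟨-s, Or.inl ?_⟩
    rw [neg_smul, ← hs]; abel
  · obtain ⟨s, hs⟩ := hfin _ h1
    refine Or.inr ⟨s, Or.inr ?_⟩
    rw [← hs]; abel

/-- a rank two matrix with prescribed behaviour -/
theorem Xm_both (a z g k : Fin n → kk) (hg1 : g ⬝ᵥ a = 1) (hgz : g ⬝ᵥ z = 0)
    (hk1 : k ⬝ᵥ z = 1) (hka : k ⬝ᵥ a = 0) :
    (-1 : kk) ∈ localSpectrum (Xm a z g k) (a + z) ∧ (1 : kk) ∈ localSpectrum (Xm a z g k) (a + z) ∧
      (-1 : kk) ∉ localSpectrum (Xm a z g k) a := by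
  have hXx : Xm a z g k *ᵥ a = a := by
    rw [Xm_mulVec, hg1, hka, one_smul, zero_smul, sub_zero]
  have hXz : Xm a z g k *ᵥ z = (-1 : kk) • z := by
    rw [Xm_mulVec, hgz, hk1, one_smul, zero_smul, zero_sub, neg_smul, one_smul]
  refine ⟨?_, ?_, not_mem_LS hXx (by norm_num)⟩
  · rw [mem_localSpectrum_iff]
    intro p hp
    rw [mulVec_add, F_eig _ _ 1 (by rw [hXx, one_smul]) p, F_eig _ _ (-1) hXz p] at hp
    have h2 := congrArg (fun v => k ⬝ᵥ v) hp
    simp only [dotProduct_add, dotProduct_smul, hka, hk1, dotProduct_zero, smul_eq_mul, mul_zero,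
      mul_one, zero_add] at h2
    exact h2
  · rw [mem_localSpectrum_iff]
    intro p hp
    rw [mulVec_add, F_eig _ _ 1 (by rw [hXx, one_smul]) p, F_eig _ _ (-1) hXz p] at hp
    have h2 := congrArg (fun v => g ⬝ᵥ v) hp
    simp only [dotProduct_add, dotProduct_smul, hg1, hgz, dotProduct_zero, smul_eq_mul, mul_zero,
      mul_one, add_zero] at h2
    exact h2

theorem F_case1n (x0 : Fin n → kk) (hx0 : x0 ≠ 0) (A : Mat kk n) (hA : IsUnit A)
    (h : ∀ T S : Mat kk n,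
      Sub0 (T * S - S * T) x0 (A * (T * S - S * T) * A⁻¹) x0 ∨
      Sub0 (T * S - S * T) x0 (-(A * (T * S - S * T) * A⁻¹)) x0) :
    ∃ A' : Mat kk n, IsUnit A' ∧ A' *ᵥ x0 = x0 ∧ ∀ Y, A * Y * A⁻¹ = A' * Y * A'⁻¹ := by
  have hd : IsUnit A.det := (Matrix.isUnit_iff_isUnit_det A).1 hA
  have hi1 : A⁻¹ * A = 1 := Matrix.nonsing_inv_mul A hd
  have hi2 : A * A⁻¹ = 1 := Matrix.mul_nonsing_inv A hd
  set y := A⁻¹ *ᵥ x0 with hy
  have hAy : A *ᵥ y = x0 := by rw [hy, mulVec_mulVec, hi2, one_mulVec]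
  have hy0 : y ≠ 0 := by
    intro h0
    rw [h0, mulVec_zero] at hAy
    exact hx0 hAy.symm
  have hmain : ∃ a : kk, y = a • x0 := by
    by_contra hcon
    push Not at hcon
    have hcon' : ∀ a : kk, x0 ≠ a • y := by
      intro a ha
      have ha0 : a ≠ 0 := by
        rintro rfl
        rw [zero_smul] at ha
        exact hx0 ha
      exact hcon a⁻¹ (by rw [ha, smul_smul, inv_mul_cancel₀ ha0, one_smul])
    set z := x0 - y with hz
    have hyz : y ∉ Submodule.span kk {z} := by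
      intro hmem
      obtain ⟨c, hc⟩ := Submodule.mem_span_singleton.1 hmem
      have hc0 : c ≠ 0 := by
        rintro rfl
        rw [zero_smul] at hc
        exact hy0 hc.symm
      apply hcon' (1 + c⁻¹)
      have : z = c⁻¹ • y := by rw [← hc, smul_smul, inv_mul_cancel₀ hc0, one_smul]
      rw [add_smul, one_smul, ← this, hz]
      abel
    have hzy : z ∉ Submodule.span kk {y} := by
      intro hmem
      obtain ⟨c, hc⟩ := Submodule.mem_span_singleton.1 hmem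
      apply hcon' (1 + c)
      rw [add_smul, one_smul, hc, hz]
      abel
    obtain ⟨g, hg1, hg2⟩ := F_dual _ _ hyz
    obtain ⟨k, hk1, hk2⟩ := F_dual _ _ hzy
    have hgz : g ⬝ᵥ z = 0 := hg2 z (Submodule.mem_span_singleton_self z)
    have hky : k ⬝ᵥ y = 0 := hk2 y (Submodule.mem_span_singleton_self y)
    have hsum : y + z = x0 := by rw [hz]; abel
    obtain ⟨m1, m2, m3⟩ := Xm_both y z g k hg1 hgz hk1 hky
    rw [hsum] at m1 m2
    have h3 := h (vecMulVec y k) (vecMulVec z g)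
    rw [Xm_comm y z g k hg1 hk1] at h3
    rcases h3 with h3 | h3
    · have h4 := h3 _ m1 (neg_ne_zero.2 one_ne_zero)
      rw [F_LS_conj A _ hA, ← hy] at h4
      exact m3 h4
    · have h4 := h3 _ m2 one_ne_zero
      rw [sc_neg, F_LS_conj A _ hA, ← hy] at h4
      exact m3 h4
  obtain ⟨a, ha⟩ := hmain
  have ha0 : a ≠ 0 := by
    rintro rfl
    rw [zero_smul] at ha
    rw [ha, mulVec_zero] at hAy
    exact hx0 hAy.symm
  have hu : IsUnit (a • A) := by
    rw [Matrix.isUnit_iff_isUnit_det, det_smul]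
    exact ((isUnit_iff_ne_zero.2 ha0).pow _).mul hd
  refine ⟨a • A, hu, ?_, ?_⟩
  · rw [smul_mulVec, ← mulVec_smul, ← ha, hAy]
  · intro Y
    have hinv : (a • A)⁻¹ = a⁻¹ • A⁻¹ := by
      apply Matrix.inv_eq_right_inv
      rw [smul_mul_assoc, mul_smul_comm, smul_smul, mul_inv_cancel₀ ha0, one_smul, hi2]
    rw [hinv, smul_mul_assoc, smul_mul_assoc, mul_smul_comm, smul_smul, mul_inv_cancel₀ ha0,
      one_smul]

/-- vectors orthogonal to `y` outside a small span -/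
theorem perp_exists (y : Fin n → kk) (hy : y ≠ 0) (s : Finset (Fin n → kk)) (hs : s.card + 1 < n) :
    ∃ b : Fin n → kk, b ⬝ᵥ y = 0 ∧ b ∉ Submodule.span kk (s : Set (Fin n → kk)) := by
  classical
  obtain ⟨k, hk⟩ := Function.ne_iff.1 hy
  have hk' : y k ≠ 0 := hk
  set w : Fin n → kk := Pi.single k (y k)⁻¹ with hw
  have hwy : w ⬝ᵥ y = 1 := by
    rw [hw, single_dotProduct, inv_mul_cancel₀ hk']
  obtain ⟨v, hv⟩ := F_out (insert w s) (lt_of_le_of_lt (Finset.card_insert_le w s) hs)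
  refine ⟨v - (v ⬝ᵥ y) • w, ?_, ?_⟩
  · rw [sub_dotProduct, smul_dotProduct, hwy, smul_eq_mul, mul_one, sub_self]
  · intro hmem
    apply hv
    have h1 : Submodule.span kk (s : Set (Fin n → kk)) ≤
        Submodule.span kk ((insert w s : Finset (Fin n → kk)) : Set (Fin n → kk)) :=
      Submodule.span_mono (by rw [Finset.coe_insert]; exact Set.subset_insert w _)
    have h2 : w ∈ Submodule.span kk ((insert w s : Finset (Fin n → kk)) : Set (Fin n → kk)) :=
      Submodule.subset_span (by rw [Finset.coe_insert]; exact Set.mem_insert w _)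
    have h3 := Submodule.add_mem _ (h1 hmem) (Submodule.smul_mem _ (v ⬝ᵥ y) h2)
    rwa [sub_add_cancel] at h3

theorem F_case2n (hn : 3 ≤ n) (x0 : Fin n → kk) (hx0 : x0 ≠ 0) (A : Mat kk n) (hA : IsUnit A)
    (h : ∀ T S : Mat kk n,
      Sub0 (T * S - S * T) x0 (A * (T * S - S * T)ᵀ * A⁻¹) x0 ∨
      Sub0 (T * S - S * T) x0 (-(A * (T * S - S * T)ᵀ * A⁻¹)) x0) :
    False := by
  classical
  have hd : IsUnit A.det := (Matrix.isUnit_iff_isUnit_det A).1 hA
  have hi2 : A * A⁻¹ = 1 := Matrix.mul_nonsing_inv A hd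
  set y := A⁻¹ *ᵥ x0 with hy
  have hAy : A *ᵥ y = x0 := by rw [hy, mulVec_mulVec, hi2, one_mulVec]
  have hy0 : y ≠ 0 := by
    intro h0
    rw [h0, mulVec_zero] at hAy
    exact hx0 hAy.symm
  -- two vectors orthogonal to y and a dual pair
  obtain ⟨a, b, f, g, hay, hby, hfa, hgb, hfx⟩ : ∃ a b f g : Fin n → kk, a ⬝ᵥ y = 0 ∧
      b ⬝ᵥ y = 0 ∧ f ⬝ᵥ a = 1 ∧ g ⬝ᵥ b = 1 ∧ f ⬝ᵥ b = 0 ∧ f ⬝ᵥ x0 = 1 := by
    by_cases hxy : x0 ⬝ᵥ y = 0
    · obtain ⟨b, hb, hb2⟩ := perp_exists y hy0 {x0} (by rw [Finset.card_singleton]; omega)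
      rw [Finset.coe_singleton] at hb2
      have hx0b : x0 ∉ Submodule.span kk {b} := by
        intro hmem
        obtain ⟨c, hc⟩ := Submodule.mem_span_singleton.1 hmem
        have hc0 : c ≠ 0 := by
          rintro rfl
          rw [zero_smul] at hc
          exact hx0 hc.symm
        apply hb2
        rw [Submodule.mem_span_singleton]
        exact ⟨c⁻¹, by rw [← hc, smul_smul, inv_mul_cancel₀ hc0, one_smul]⟩
      obtain ⟨f, hf1, hf2⟩ := F_dual _ _ hx0b
      obtain ⟨g, hg1, -⟩ := F_dual _ _ hb2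
      exact ⟨x0, b, f, g, hxy, hb, hf1, hg1, hf2 b (Submodule.mem_span_singleton_self b), hf1⟩
    · obtain ⟨a, ha, ha2⟩ := perp_exists y hy0 ∅ (by rw [Finset.card_empty]; omega)
      have ha0 : a ≠ 0 := by
        rintro rfl
        exact ha2 (Submodule.zero_mem _)
      obtain ⟨b, hb, hb2⟩ := perp_exists y hy0 {a} (by rw [Finset.card_singleton]; omega)
      rw [Finset.coe_singleton] at hb2
      have hbase : a ∉ Submodule.span kk {b, x0 - a} := by
        intro hmem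
        obtain ⟨β, γ, hbg⟩ := Submodule.mem_span_pair.1 hmem
        have h1 := congrArg (fun v => v ⬝ᵥ y) hbg
        simp only [add_dotProduct, smul_dotProduct, sub_dotProduct, hb, ha, smul_eq_mul, mul_zero,
          sub_zero, zero_add] at h1
        have hγ : γ = 0 := (mul_eq_zero.1 h1).resolve_right hxy
        rw [hγ, zero_smul, add_zero] at hbg
        have hβ : β ≠ 0 := by
          rintro rfl
          rw [zero_smul] at hbg
          exact ha0 hbg.symm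
        apply hb2
        rw [Submodule.mem_span_singleton]
        exact ⟨β⁻¹, by rw [← hbg, smul_smul, inv_mul_cancel₀ hβ, one_smul]⟩
      obtain ⟨f, hf1, hf2⟩ := F_dual _ _ hbase
      obtain ⟨g, hg1, -⟩ := F_dual _ _ hb2
      have hfb : f ⬝ᵥ b = 0 := hf2 b (Submodule.subset_span (by simp))
      have hfx : f ⬝ᵥ (x0 - a) = 0 := hf2 (x0 - a) (Submodule.subset_span (by simp))
      rw [dotProduct_sub, hf1, sub_eq_zero] at hfx
      exact ⟨a, b, f, g, ha, hb, hf1, hg1, hfb, hfx⟩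
  obtain ⟨hfb, hfx⟩ := hfx
  have hrow : f ᵥ* (Xm a b f g) = (1 : kk) • f := by
    unfold Xm
    rw [Matrix.vecMul_sub, Matrix.vecMul_vecMulVec, Matrix.vecMul_vecMulVec, hfa, hfb, zero_smul,
      sub_zero]
  have hmem : (1 : kk) ∈ localSpectrum (Xm a b f g) x0 := by
    rw [mem_localSpectrum_iff]
    intro p hp
    exact eval_zero_of_row _ f x0 1 hrow p hp (by rw [hfx]; exact one_ne_zero)
  have hker : (Xm a b f g)ᵀ *ᵥ y = 0 := by
    rw [XmT_mulVec, hay, hby, zero_smul, zero_smul, sub_zero]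
  have h3 := h (vecMulVec a g) (vecMulVec b f)
  rw [Xm_comm a b f g hfa hgb] at h3
  rcases h3 with h3 | h3
  · have h4 := h3 _ hmem one_ne_zero
    rw [F_LS_conj A _ hA, ← hy, mem_localSpectrum_iff] at h4
    have h5 := h4 X (by rw [aeval_X, hker])
    simp at h5
  · have h4 := h3 _ hmem one_ne_zero
    rw [sc_neg, F_LS_conj A _ hA, ← hy, mem_localSpectrum_iff] at h4
    have h5 := h4 X (by rw [aeval_X, hker])
    simp at h5

/-- the form of the conjugating matrix, one sided -/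
theorem stepFn (hn : 2 ≤ n) (x0 : Fin n → kk) (hx0 : x0 ≠ 0) (A : Mat kk n) (hA : IsUnit A)
    (N : Mat kk n → Mat kk n) (hN : (∀ Y, N Y = A * Y * A⁻¹) ∨ (∀ Y, N Y = A * Yᵀ * A⁻¹))
    (h : ∀ T S : Mat kk n,
      Sub0 (T * S - S * T) x0 (N (T * S - S * T)) x0 ∨
      Sub0 (T * S - S * T) x0 (-N (T * S - S * T)) x0) :
    ∃ (A' : Mat kk n) (k' : kk), IsUnit A' ∧ (k' = 1 ∨ k' = -1) ∧ A' *ᵥ x0 = x0 ∧
      ∀ Y, trace Y = 0 → N Y = k' • (A' * Y * A'⁻¹) := by
  rcases hN with hN | hN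
  · simp only [hN] at h
    obtain ⟨A', h1, h2, h3⟩ := F_case1n x0 hx0 A hA h
    exact ⟨A', 1, h1, Or.inl rfl, h2, fun Y _ => by rw [hN, one_smul, h3]⟩
  · rcases Nat.lt_or_ge 2 n with h3 | h3
    · simp only [hN] at h
      exact (F_case2n h3 x0 hx0 A hA h).elim
    · obtain rfl : n = 2 := le_antisymm h3 hn
      have hd : IsUnit A.det := (Matrix.isUnit_iff_isUnit_det A).1 hA
      set J : Mat kk 2 := !![0, 1; -1, 0] with hJ
      have hJd : J.det = 1 := by rw [hJ, Matrix.det_fin_two_of]; ring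
      have hJi : J⁻¹ = !![0, -1; 1, 0] := by
        apply Matrix.inv_eq_right_inv
        rw [hJ]
        ext i j
        fin_cases i <;> fin_cases j <;> simp [Matrix.mul_apply, Fin.sum_univ_two]
      have hJY : ∀ Y : Mat kk 2, trace Y = 0 → Yᵀ = -(J * Y * J⁻¹) := by
        intro Y hY
        rw [Matrix.trace_fin_two] at hY
        rw [hJi, hJ]
        obtain ⟨a, b, c, d, rfl⟩ : ∃ a b c d, Y = !![a, b; c, d] :=
          ⟨_, _, _, _, Matrix.eta_fin_two Y⟩
        have hY' : a + d = 0 := by simpa using hY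
        rw [Matrix.mul_fin_two, Matrix.mul_fin_two]
        ext i j
        fin_cases i <;> fin_cases j <;> simp
        · linear_combination hY'
        · linear_combination hY'
      have hB : IsUnit (A * J) := by
        rw [Matrix.isUnit_iff_isUnit_det, det_mul, hJd, mul_one]
        exact hd
      have hinv : (A * J)⁻¹ = J⁻¹ * A⁻¹ := Matrix.mul_inv_rev A J
      have hNY : ∀ Y : Mat kk 2, trace Y = 0 → N Y = -((A * J) * Y * (A * J)⁻¹) := by
        intro Y hY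
        rw [hN, hJY Y hY, hinv, mul_neg, neg_mul]
        simp only [mul_assoc]
      have hcomm : ∀ T S : Mat kk 2, trace (T * S - S * T) = 0 := by
        intro T S
        rw [trace_sub, trace_mul_comm, sub_self]
      obtain ⟨A', h1, h2, h3⟩ := F_case1n x0 hx0 (A * J) hB (fun T S => by
        have h4 := h T S
        rw [hNY _ (hcomm T S), neg_neg] at h4
        exact h4.symm)
      exact ⟨A', -1, h1, Or.inr rfl, h2, fun Y hY => by
        rw [hNY Y hY, h3, neg_smul, one_smul]⟩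

theorem sc_epsn (x0 : Fin n → kk) (X : Mat kk n) (hX : scNS x0 X) (c : kk) (hc : c = 1 ∨ c = -1)
    (h : Sub0 X x0 (c • X) x0) : c = 1 := by
  rcases hc with hc | hc
  · exact hc
  · exfalso
    rw [hc, neg_smul, one_smul] at h
    obtain ⟨l, hl, hl2⟩ := hX
    have hl0 : l ≠ 0 := by
      rintro rfl
      exact hl2 (by rw [neg_zero]; exact hl)
    apply hl2
    rw [← sc_neg]
    exact h l hl hl0

/-- the signs, one sided form -/
theorem stepHn (hn : 2 ≤ n) (x0 : Fin n → kk) (hx0 : x0 ≠ 0) (ε : Mat kk n → kk) (κ : kk)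
    (hκ : κ = 1 ∨ κ = -1) (hε : ∀ T, ε T = 1 ∨ ε T = -1)
    (h : ∀ T S : Mat kk n,
      Sub0 (T * S - S * T) x0 ((κ * ε T * ε S) • (T * S - S * T)) x0) :
    κ = 1 ∧ ∀ T S, T ∉ excSet x0 → S ∉ excSet x0 → ε T = ε S := by
  have hsign : ∀ T S : Mat kk n, κ * ε T * ε S = 1 ∨ κ * ε T * ε S = -1 := by
    intro T S
    rcases hκ with h1 | h1 <;> rcases hε T with h2 | h2 <;> rcases hε S with h3 | h3 <;>
      rw [h1, h2, h3] <;> norm_num
  have hprod : ∀ T S : Mat kk n, scNS x0 (T * S - S * T) → κ * ε T * ε S = 1 := fun T S hns =>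
    sc_epsn x0 _ hns _ (hsign T S) (h T S)
  -- κ = 1
  have hκ1 : κ = 1 := by
    obtain ⟨z, hz⟩ : ∃ z : Fin n → kk, ¬ ∃ a : kk, z = a • x0 := by
      by_contra hcon
      push Not at hcon
      have htop : (⊤ : Submodule kk (Fin n → kk)) ≤ Submodule.span kk {x0} := by
        intro v _
        obtain ⟨a, ha⟩ := hcon v
        rw [Submodule.mem_span_singleton]
        exact ⟨a, ha.symm⟩
      have h1 : Module.finrank kk (Submodule.span kk {x0}) ≤ 1 := by
        have := finrank_span_le_card (R := kk) ({x0} : Set (Fin n → kk))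
        simpa using this
      rw [top_le_iff.mp htop, finrank_top, Module.finrank_fin_fun] at h1
      omega
    have hind : LinearIndependent kk ![x0, z] := by
      apply sc_ind2
      intro s t hst
      have ht : t = 0 := by
        by_contra ht
        apply hz
        refine ⟨-(t⁻¹ * s), ?_⟩
        have h1 : t • z = -(s • x0) := by
          rw [eq_neg_iff_add_eq_zero, add_comm]; exact hst
        rw [neg_smul, mul_smul, ← smul_neg, ← h1, smul_smul, inv_mul_cancel₀ ht, one_smul]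
      rw [ht, zero_smul, add_zero] at hst
      rcases smul_eq_zero.mp hst with h | h
      · exact ⟨h, ht⟩
      · exact absurd h hx0
    have hT : ∀ b : kk, ∃ T : Mat kk n, T *ᵥ x0 = z ∧ T *ᵥ z = b • x0 := by
      intro b
      obtain ⟨S, hS⟩ := sc_exists_mat (n := n) ![x0, z] ![z, b • x0] hind
      exact ⟨S, hS 0, hS 1⟩
    choose Tb hTb using hT
    have hpair : ∀ b b' : kk, b ≠ b' → κ * ε (Tb b) * ε (Tb b') = 1 := by
      intro b b' hbb
      apply hprod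
      refine sc_C1 x0 hx0 _ (b - b') (sub_ne_zero.mpr hbb) ?_
      rw [sc_comm, (hTb b').1, (hTb b).1, (hTb b).2, (hTb b').2, sub_smul]
    have h01 := hpair 0 1 (by norm_num)
    have h12 := hpair 1 2 (by norm_num)
    have h20 := hpair 2 0 (by norm_num)
    rcases hκ with h1 | h1
    · exact h1
    · exfalso
      rcases hε (Tb 0) with e0 | e0 <;> rcases hε (Tb 1) with e1 | e1 <;>
        rcases hε (Tb 2) with e2 | e2 <;> rw [e0, e1, h1] at h01 <;> rw [e1, e2, h1] at h12 <;>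
        rw [e2, e0, h1] at h20 <;>
        first
          | (norm_num at h01; done)
          | (norm_num at h12; done)
          | (norm_num at h20; done)
  refine ⟨hκ1, ?_⟩
  have heq : ∀ T S : Mat kk n, scNS x0 (T * S - S * T) → ε T = ε S := by
    intro T S hns
    have h1 := hprod T S hns
    rw [hκ1, one_mul] at h1
    rcases hε T with h2 | h2 <;> rcases hε S with h3 | h3 <;> rw [h2, h3] at h1 ⊢ <;>
      norm_num at h1
  have hA : ∀ T1 T2 : Mat kk n, (¬ ∃ a : kk, T1 *ᵥ x0 = a • x0) →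
      (¬ ∃ a : kk, T2 *ᵥ x0 = a • x0) → ε T1 = ε T2 := by
    intro T1 T2 h1 h2
    obtain ⟨S, hS1, hS2⟩ := sc_caseA x0 hx0 T1 T2 h1 h2
    rw [heq T1 S hS1, heq T2 S hS2]
  have hlink : ∀ T : Mat kk n, T ∉ excSet x0 → ∃ S : Mat kk n, (¬ ∃ b : kk, S *ᵥ x0 = b • x0) ∧
      ε T = ε S := by
    intro T hT
    by_cases hc : ∃ a : kk, T *ᵥ x0 = a • x0
    · obtain ⟨a, ha⟩ := hc
      obtain ⟨S, hS1, hS2⟩ := sc_link x0 hx0 T hT a ha
      exact ⟨S, hS1, heq T S hS2⟩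
    · exact ⟨T, hc, rfl⟩
  intro T S hT hS
  obtain ⟨T', hT1, hT2⟩ := hlink T hT
  obtain ⟨S', hS1, hS2⟩ := hlink S hS
  rw [hT2, hS2]
  exact hA T' S' hT1 hS1

/-- the main step, one sided form -/
theorem main_two_sub (hn : 2 ≤ n) (x0 : Fin n → kk) (hx0 : x0 ≠ 0) (φ : Mat kk n → Mat kk n)
    (h : ∀ T S : Mat kk n, Sub0 (T * S - S * T) x0 (φ T * φ S - φ S * φ T) x0) :
    IsStandardOff x0 x0 φ := by
  classical
  have hn0 : n ≠ 0 := by omega
  have hnC : (n : kk) ≠ 0 := by exact_mod_cast hn0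
  set Δ : Mat kk n × Mat kk n → kk := fun p => dlt x0 (p.1 * p.2 - p.2 * p.1) *
    (p.1 * p.2 - p.2 * p.1).det with hΔdef
  have hΔ2 : PL (fun p : Mat kk n × Mat kk n => (p.1 * p.2 - p.2 * p.1).det) := by
    have h1 : PLM (fun p : Mat kk n × Mat kk n => p.1) :=
      PLM.lin (LinearMap.fst kk (Mat kk n) (Mat kk n))
    have h2 : PLM (fun p : Mat kk n × Mat kk n => p.2) :=
      PLM.lin (LinearMap.snd kk (Mat kk n) (Mat kk n))
    exact ((h1.mul h2).sub (h2.mul h1)).det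
  have hΔ : PL Δ := (PL_dlt x0).mul hΔ2
  have hΔ0 : ∃ p, Δ p ≠ 0 := by
    obtain ⟨T, S, hTS⟩ := exists_dlt x0 hx0
    obtain ⟨T', S', hTS'⟩ := exists_det_comm (kk := kk) hn
    obtain ⟨q, hq1, hq2⟩ := PL.two (PL_dlt x0) hΔ2 ⟨(T, S), hTS⟩ ⟨(T', S'), hTS'⟩
    exact ⟨q, mul_ne_zero hq1 hq2⟩
  have hpow : ∀ T S, Δ (T, S) ≠ 0 → ∀ k : ℕ,
      trace ((φ T * φ S - φ S * φ T) ^ k) = trace ((T * S - S * T) ^ k) := by
    intro T S hTS k
    exact (trace_pow_eq_of_sub0 _ _ x0 x0 (h T S) (ncard_of_dlt _ _ (left_ne_zero_of_mul hTS))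
      (right_ne_zero_of_mul hTS) k).symm
  obtain ⟨L, G, hG, hG0, hL1, htr, hLφ⟩ := stepBC hn Δ hΔ hΔ0 φ (fun T S hTS => hpow T S hTS 2)
  -- sign form of hLφ
  have hLφ' : ∀ T, G T ≠ 0 → ∃ e s : kk, (e = 1 ∨ e = -1) ∧ φ T = e • L T + s • (1 : Mat kk n) := by
    intro T hT
    obtain ⟨s, hs | hs⟩ := hLφ T hT
    · exact ⟨1, s, Or.inl rfl, by rw [one_smul]; exact hs⟩
    · exact ⟨-1, s, Or.inr rfl, by rw [neg_one_smul]; exact hs⟩
  have hcomm : ∀ (a b a' b' : Mat kk n) (e f s t : kk), a = e • a' + s • (1 : Mat kk n) →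
      b = f • b' + t • (1 : Mat kk n) → a * b - b * a = (e * f) • (a' * b' - b' * a') := by
    intro a b a' b' e f s t ha hb
    rw [comm_shift a b _ _ s t ha hb]
    rw [smul_mul_assoc, mul_smul_comm, smul_mul_assoc, mul_smul_comm, smul_smul, smul_smul,
      smul_sub, mul_comm f e]
  -- identity principle on pairs
  have hgen : ∀ (F : Mat kk n × Mat kk n → kk), PL F →
      (∀ T S, G T ≠ 0 → G S ≠ 0 → Δ (T, S) ≠ 0 → F (T, S) = 0) → ∀ T S, F (T, S) = 0 := by
    intro F hF h1 T S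
    have hG1 : PL (fun p : Mat kk n × Mat kk n => G p.1) := hG.comp (LinearMap.fst kk (Mat kk n) (Mat kk n))
    have hG2 : PL (fun p : Mat kk n × Mat kk n => G p.2) := hG.comp (LinearMap.snd kk (Mat kk n) (Mat kk n))
    obtain ⟨T1, hT1⟩ := hG0
    obtain ⟨q, hq1, hq2⟩ := PL.two hG1 hG2 ⟨(T1, T1), hT1⟩ ⟨(T1, T1), hT1⟩
    obtain ⟨r, hr1, hr2⟩ := PL.two (hG1.mul hG2) hΔ ⟨q, mul_ne_zero hq1 hq2⟩ hΔ0
    refine PL.eq_zero hF ((hG1.mul hG2).mul hΔ) ⟨r, mul_ne_zero hr1 hr2⟩ ?_ (T, S)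
    rintro ⟨a, b⟩ hab
    have h2 := left_ne_zero_of_mul hab
    exact h1 a b (left_ne_zero_of_mul h2) (right_ne_zero_of_mul h2) (right_ne_zero_of_mul hab)
  have hP1 : PLM (fun p : Mat kk n × Mat kk n => p.1) := PLM.lin (LinearMap.fst kk (Mat kk n) (Mat kk n))
  have hP2 : PLM (fun p : Mat kk n × Mat kk n => p.2) := PLM.lin (LinearMap.snd kk (Mat kk n) (Mat kk n))
  have hQ1 : PLM (fun p : Mat kk n × Mat kk n => L p.1) := PLM.lin (L ∘ₗ LinearMap.fst kk (Mat kk n) (Mat kk n))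
  have hQ2 : PLM (fun p : Mat kk n × Mat kk n => L p.2) := PLM.lin (L ∘ₗ LinearMap.snd kk (Mat kk n) (Mat kk n))
  have hPc : PLM (fun p : Mat kk n × Mat kk n => p.1 * p.2 - p.2 * p.1) := (hP1.mul hP2).sub (hP2.mul hP1)
  have hQc : PLM (fun p : Mat kk n × Mat kk n => L p.1 * L p.2 - L p.2 * L p.1) :=
    (hQ1.mul hQ2).sub (hQ2.mul hQ1)
  have h2 : ∀ T S, trace ((L T * L S - L S * L T) ^ 2) = trace ((T * S - S * T) ^ 2) := by
    intro T S
    have := hgen (fun p => trace ((L p.1 * L p.2 - L p.2 * L p.1) ^ 2) -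
      trace ((p.1 * p.2 - p.2 * p.1) ^ 2)) ((hQc.pow 2).trace.sub (hPc.pow 2).trace) (by
        intro T S hT hS hTS
        obtain ⟨e, s, he, hes⟩ := hLφ' T hT
        obtain ⟨f, t, hf, hft⟩ := hLφ' S hS
        have h3 := hpow T S hTS 2
        rw [hcomm _ _ _ _ e f s t hes hft, _root_.smul_pow, trace_smul, smul_eq_mul] at h3
        have h4 : (e * f) ^ 2 = 1 := by
          rcases he with rfl | rfl <;> rcases hf with rfl | rfl <;> norm_num
        rw [h4, one_mul] at h3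
        exact sub_eq_zero.mpr h3) T S
    exact sub_eq_zero.mp this
  have h3 : ∀ T S, (trace ((L T * L S - L S * L T) ^ 3)) ^ 2 = (trace ((T * S - S * T) ^ 3)) ^ 2 := by
    intro T S
    have := hgen (fun p => (trace ((L p.1 * L p.2 - L p.2 * L p.1) ^ 3)) ^ 2 -
      (trace ((p.1 * p.2 - p.2 * p.1) ^ 3)) ^ 2)
      (((hQc.pow 3).trace.pow 2).sub ((hPc.pow 3).trace.pow 2)) (by
        intro T S hT hS hTS
        obtain ⟨e, s, he, hes⟩ := hLφ' T hT
        obtain ⟨f, t, hf, hft⟩ := hLφ' S hS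
        have h3 := hpow T S hTS 3
        rw [hcomm _ _ _ _ e f s t hes hft, _root_.smul_pow, trace_smul, smul_eq_mul] at h3
        have h4 : ((e * f) ^ 3) ^ 2 = 1 := by
          rcases he with rfl | rfl <;> rcases hf with rfl | rfl <;> norm_num
        show (trace ((L T * L S - L S * L T) ^ 3)) ^ 2 - (trace ((T * S - S * T) ^ 3)) ^ 2 = 0
        rw [← h3, mul_pow, h4]; ring) T S
    exact sub_eq_zero.mp this
  obtain ⟨c, hc0, hlie, horth, hsurj⟩ := stepM commuting_linear hn L htr (curv L h2)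
  set M : Mat kk n →ₗ[kk] Mat kk n := c • L with hM
  have hMapp : ∀ X, M X = c • L X := fun X => rfl
  obtain ⟨ε, hε, hcub⟩ := stepE1 hn M (by rw [hMapp, hL1, smul_zero]) (by
    intro T S
    rw [hMapp, ← hlie]
    exact h3 T S)
  obtain ⟨A, hA, hg2, hMA⟩ := stepE2 hn M (by rw [hMapp, hL1, smul_zero])
    (by intro T; rw [hMapp, trace_smul, htr, smul_zero]) (c ^ 2)
    (by
      intro T S
      rw [hMapp, hMapp, hMapp, smul_mul_assoc, mul_smul_comm, smul_mul_assoc, mul_smul_comm,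
        smul_smul, smul_smul, ← smul_sub, hlie, smul_smul, smul_smul]
      congr 1; ring)
    (by
      intro X Z hX hZ
      rw [← horth X Z hX hZ, hMapp, hMapp, smul_mul_assoc, mul_smul_comm, smul_smul, trace_smul,
        smul_eq_mul, sq])
    (by
      intro Z hZ
      obtain ⟨X, hX⟩ := hsurj (c⁻¹ • Z) (by rw [trace_smul, hZ, smul_zero])
      exact ⟨X, by rw [hMapp, hX, smul_smul, mul_inv_cancel₀ hc0, one_smul]⟩)
    ε hε hcub
  -- uniform description
  obtain ⟨N, hN, hMN⟩ : ∃ N : Mat kk n → Mat kk n,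
      ((∀ Y, N Y = A * Y * A⁻¹) ∨ (∀ Y, N Y = A * Yᵀ * A⁻¹)) ∧ ∀ T, trace T = 0 → M T = ε • N T := by
    rcases hMA with h4 | h4
    · exact ⟨fun Y => A * Y * A⁻¹, Or.inl fun _ => rfl, h4⟩
    · exact ⟨fun Y => A * Yᵀ * A⁻¹, Or.inr fun _ => rfl, h4⟩
  have hLL : ∀ T S, L T * L S - L S * L T = ε • N (T * S - S * T) := by
    intro T S
    rw [hlie, ← hMapp, hMN _ (trace_comm_zero T S)]
  have hpm : ∀ (a b : kk), (a = 1 ∨ a = -1) → (b = 1 ∨ b = -1) → (a * b = 1 ∨ a * b = -1) := by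
    intro a b ha hb
    rcases ha with rfl | rfl <;> rcases hb with rfl | rfl <;> norm_num
  have hLScase : ∀ (a : kk) (Y Z : Mat kk n), (a = 1 ∨ a = -1) → Sub0 Z x0 (a • Y) x0 →
      (Sub0 Z x0 Y x0 ∨ Sub0 Z x0 (-Y) x0) := by
    intro a Y Z ha h5
    rcases ha with rfl | rfl
    · left; rwa [one_smul] at h5
    · right; rwa [neg_one_smul] at h5
  -- all T
  have hall : ∀ T, ∃ e s : kk, (e = 1 ∨ e = -1) ∧
      ((¬ ∃ c : kk, T = c • (1 : Mat kk n)) → φ T = e • L T + s • (1 : Mat kk n)) := by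
    intro T
    by_cases hsc : ∃ c : kk, T = c • (1 : Mat kk n)
    · exact ⟨1, 0, Or.inl rfl, fun hc => absurd hsc hc⟩
    obtain ⟨T', hT'⟩ := hsurj (tl (φ T)) (trace_tl hn0 (φ T))
    have hφT : φ T = (1 : kk) • L T' + (trace (φ T) / n) • (1 : Mat kk n) := by
      rw [one_smul, hT']; unfold tl; abel
    have hsG := stepGn hn T T' x0 hx0 G hG hG0 A hA N hN (by
      intro S hS
      obtain ⟨f, t, hf, hft⟩ := hLφ' S hS
      have h5 := h T S
      rw [hcomm _ _ _ _ 1 f _ t hφT hft, hLL, smul_smul] at h5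
      exact hLScase _ _ _ (hpm _ _ (hpm _ _ (Or.inl rfl) hf) hε) h5)
    obtain ⟨s, hs⟩ := hsG.resolve_left hsc
    rcases hs with hs | hs
    · refine ⟨1, trace (φ T) / n, Or.inl rfl, fun _ => ?_⟩
      have : L T' = L T := by rw [hs, map_add, map_smul, hL1, smul_zero, add_zero]
      rw [← this]; exact hφT
    · refine ⟨-1, trace (φ T) / n, Or.inr rfl, fun _ => ?_⟩
      have : L T' = -L T := by rw [hs, map_add, map_smul, hL1, smul_zero, add_zero, map_neg]
      rw [neg_one_smul, ← this]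
      rw [one_smul] at hφT; exact hφT
  choose e s he hes using hall
  -- commutators with a scalar matrix vanish
  have hscL : ∀ T S : Mat kk n, (∃ c : kk, T = c • (1 : Mat kk n)) → T * S - S * T = 0 := by
    rintro T S ⟨c, rfl⟩
    rw [smul_mul_assoc, mul_smul_comm, one_mul, mul_one, sub_self]
  have hscR : ∀ T S : Mat kk n, (∃ c : kk, S = c • (1 : Mat kk n)) → T * S - S * T = 0 := by
    rintro T S ⟨c, rfl⟩
    rw [smul_mul_assoc, mul_smul_comm, one_mul, mul_one, sub_self]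
  obtain ⟨A', k', hA', hk', hA'x, hNA⟩ := stepFn hn x0 hx0 A hA N hN (by
    intro T S
    by_cases hT : ∃ c : kk, T = c • (1 : Mat kk n)
    · rw [hscL T S hT]; exact Or.inl (sub0_zero _ _ _)
    by_cases hS : ∃ c : kk, S = c • (1 : Mat kk n)
    · rw [hscR T S hS]; exact Or.inl (sub0_zero _ _ _)
    have h5 := h T S
    rw [hcomm _ _ _ _ (e T) (e S) _ _ (hes T hT) (hes S hS), hLL, smul_smul] at h5
    exact hLScase _ _ _ (hpm _ _ (hpm _ _ (he T) (he S)) hε) h5)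
  set k : kk := c⁻¹ * ε * k' with hk
  have hinv : A' * A'⁻¹ = 1 := Matrix.mul_nonsing_inv A' ((Matrix.isUnit_iff_isUnit_det A').mp hA')
  have hLA : ∀ T, ∃ t : kk, L T = k • (A' * T * A'⁻¹) + t • (1 : Mat kk n) := by
    intro T
    have h5 : L T = L (tl T) := by
      have e5 : T = tl T + (trace T / n) • (1 : Mat kk n) := by unfold tl; abel
      conv_lhs => rw [e5]
      rw [map_add, map_smul, hL1, smul_zero, add_zero]
    have h6 : L (tl T) = k • (A' * tl T * A'⁻¹) := by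
      have h7 := hMN (tl T) (trace_tl hn0 T)
      rw [hNA _ (trace_tl hn0 T), hMapp] at h7
      have h8 : L (tl T) = c⁻¹ • (c • L (tl T)) := by rw [smul_smul, inv_mul_cancel₀ hc0, one_smul]
      rw [h8, h7, smul_smul, smul_smul, hk]
    refine ⟨-(k * (trace T / n)), ?_⟩
    rw [h5, h6]
    have h7 : A' * tl T * A'⁻¹ = A' * T * A'⁻¹ - (trace T / n) • (1 : Mat kk n) := by
      unfold tl
      rw [mul_sub, sub_mul, mul_smul_comm, smul_mul_assoc, mul_one, hinv]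
    rw [h7, smul_sub, smul_smul, neg_smul, sub_eq_add_neg]
  have hk2 : (k ^ 2 = 1 ∨ k ^ 2 = -1) := by
    have h5 : (k ^ 2 - 1) * (k ^ 2 + 1) = 0 := by
      have h6 : ε ^ 4 = 1 := by rcases hε with rfl | rfl <;> norm_num
      have h7 : k' ^ 4 = 1 := by rcases hk' with rfl | rfl <;> norm_num
      have h8 : (c⁻¹) ^ 4 = 1 := by
        have : c ^ 4 = 1 := by rw [← hg2]; ring
        rw [inv_pow, this, inv_one]
      have h9 : k ^ 4 = 1 := by
        rw [hk, mul_pow, mul_pow, h6, h7, h8]; ring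
      linear_combination h9
    rcases mul_eq_zero.mp h5 with h6 | h6
    · left; linear_combination h6
    · right; linear_combination h6
  have hφA : ∀ T, ∃ t : kk, (¬ ∃ c : kk, T = c • (1 : Mat kk n)) →
      φ T = (e T * k) • (A' * T * A'⁻¹) + t • (1 : Mat kk n) := by
    intro T
    obtain ⟨t, ht⟩ := hLA T
    refine ⟨e T * t + s T, fun hT => ?_⟩
    conv_lhs => rw [hes T hT, ht]
    rw [smul_add, smul_smul, smul_smul, add_smul, add_assoc]
  have hinv' : A'⁻¹ * A' = 1 := Matrix.nonsing_inv_mul A' ((Matrix.isUnit_iff_isUnit_det A').mp hA')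
  have hconj : ∀ T S : Mat kk n, (A' * T * A'⁻¹) * (A' * S * A'⁻¹) = A' * (T * S) * A'⁻¹ := by
    intro T S
    have : (A' * T * A'⁻¹) * (A' * S * A'⁻¹) = A' * T * (A'⁻¹ * A') * S * A'⁻¹ := by
      simp only [Matrix.mul_assoc]
    rw [this, hinv', Matrix.mul_one]
    simp only [Matrix.mul_assoc]
  have hH : ∀ T S : Mat kk n,
      Sub0 (T * S - S * T) x0 ((k ^ 2 * e T * e S) • (T * S - S * T)) x0 := by
    intro T S
    by_cases hT : ∃ c : kk, T = c • (1 : Mat kk n)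
    · rw [hscL T S hT]; exact sub0_zero _ _ _
    by_cases hS : ∃ c : kk, S = c • (1 : Mat kk n)
    · rw [hscR T S hS]; exact sub0_zero _ _ _
    obtain ⟨t, ht⟩ := hφA T
    obtain ⟨u, hu⟩ := hφA S
    have h5 := h T S
    rw [hcomm _ _ _ _ _ _ _ _ (ht hT) (hu hS), hconj, hconj, ← sub_mul, ← mul_sub] at h5
    have h6 : (e T * k * (e S * k)) • (A' * (T * S - S * T) * A'⁻¹) =
        A' * ((k ^ 2 * e T * e S) • (T * S - S * T)) * A'⁻¹ := by
      rw [mul_smul_comm, smul_mul_assoc]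
      congr 1
      ring
    rw [h6] at h5
    intro l hl hl0
    have h7 := h5 l hl hl0
    rwa [F_LS_conj_fix A' _ hA' x0 hA'x] at h7
  obtain ⟨hk1, hconst⟩ := stepHn hn x0 hx0 e (k ^ 2) hk2 he hH
  have hkpm : k = 1 ∨ k = -1 := (by rcases mul_eq_zero.mp (show (k - 1) * (k + 1) = 0 by linear_combination hk1) with h6 | h6; exacts [Or.inl (by linear_combination h6), Or.inr (by linear_combination h6)])
  choose η hη using hφA
  refine ⟨A', η, fun T => e T * k, hA', hA'x, fun T => hpm _ _ (he T) hkpm, ?_, hη⟩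
  intro T S hT hS
  show e T * k = e S * k
  rw [hconst T S hT hS]


/-- one sided characterisation at two vectors -/
theorem standardOff_iff (x0 y0 : Fin n → kk) (hx0 : x0 ≠ 0) (hy0 : y0 ≠ 0)
    (φ : Mat kk n → Mat kk n) :
    (∀ T S : Mat kk n, ∀ l ∈ localSpectrum (T * S - S * T) x0, l ≠ 0 →
      l ∈ localSpectrum (φ T * φ S - φ S * φ T) y0) ↔ IsStandardOff x0 y0 φ := by
  constructor
  · intro h
    obtain ⟨B, hB, hBy⟩ := exists_unit_mulVec y0 x0 hy0 hx0
    have hd : IsUnit B.det := (Matrix.isUnit_iff_isUnit_det B).1 hB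
    have hB1 : B⁻¹ * B = 1 := Matrix.nonsing_inv_mul B hd
    have hBx : B⁻¹ *ᵥ x0 = y0 := by
      rw [← hBy, Matrix.mulVec_mulVec, hB1, Matrix.one_mulVec]
    have hBi : IsUnit B⁻¹ := IsUnit.of_mul_eq_one _ hB1
    by_cases hn : 2 ≤ n
    · have hcomm : ∀ X Y : Mat kk n, (B * X * B⁻¹) * (B * Y * B⁻¹) = B * (X * Y) * B⁻¹ := by
        intro X Y
        calc (B * X * B⁻¹) * (B * Y * B⁻¹) = B * X * (B⁻¹ * B) * Y * B⁻¹ := by
              simp only [mul_assoc]
          _ = B * (X * Y) * B⁻¹ := by rw [hB1]; simp only [mul_assoc, one_mul]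
      obtain ⟨A, η, ξ, hA, hAx, h1, h2, h3⟩ := main_two_sub hn x0 hx0
        (fun T => B * φ T * B⁻¹) (by
          intro T S l hl hl0
          have h4 := h T S l hl hl0
          show l ∈ localSpectrum ((B * φ T * B⁻¹) * (B * φ S * B⁻¹) -
            (B * φ S * B⁻¹) * (B * φ T * B⁻¹)) x0
          rw [hcomm, hcomm, ← Matrix.sub_mul, ← Matrix.mul_sub, F_LS_conj B _ hB x0, hBx]
          exact h4)
      refine ⟨B⁻¹ * A, η, ξ, hBi.mul hA, ?_, h1, h2, fun T hT => ?_⟩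
      · rw [← Matrix.mulVec_mulVec, hAx, hBx]
      · have h4 : φ T = B⁻¹ * (B * φ T * B⁻¹) * B := by
          calc φ T = (B⁻¹ * B) * φ T * (B⁻¹ * B) := by rw [hB1]; simp
            _ = B⁻¹ * (B * φ T * B⁻¹) * B := by simp only [mul_assoc]
        have h5 : (B⁻¹ * A)⁻¹ = A⁻¹ * B := by
          rw [Matrix.mul_inv_rev, Matrix.nonsing_inv_nonsing_inv B hd]
        have h6 : B * φ T * B⁻¹ = ξ T • (A * T * A⁻¹) + η T • (1 : Mat kk n) := h3 T hT
        rw [h4, h6, h5, Matrix.mul_add, Matrix.add_mul, mul_smul_comm, smul_mul_assoc,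
          mul_smul_comm, smul_mul_assoc, mul_one, hB1]
        simp only [mul_assoc]
    · refine ⟨B⁻¹, fun _ => 0, fun _ => 1, hBi, hBx, fun _ => Or.inl rfl, fun _ _ _ _ => rfl,
        fun T hT => ?_⟩
      exfalso
      apply hT
      have hn1 : n = 1 := by
        rcases Nat.eq_zero_or_pos n with h0 | h0
        · subst h0
          exact absurd (Subsingleton.elim x0 0) hx0
        · omega
      subst hn1
      refine ⟨T 0 0, ?_⟩
      ext i j
      fin_cases i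
      fin_cases j
      simp
  · rintro ⟨A, η, ξ, hA, hAx, h1, h2, h3⟩ T S l hl hl0
    by_cases hT : ∃ c : kk, T = c • (1 : Mat kk n)
    · obtain ⟨c, rfl⟩ := hT
      rw [smul_mul_assoc, mul_smul_comm, one_mul, mul_one, sub_self] at hl
      exact absurd (zero_of_mem_zero _ _ hl) hl0
    by_cases hS : ∃ c : kk, S = c • (1 : Mat kk n)
    · obtain ⟨c, rfl⟩ := hS
      rw [smul_mul_assoc, mul_smul_comm, one_mul, mul_one, sub_self] at hl
      exact absurd (zero_of_mem_zero _ _ hl) hl0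
    have h4 := (standardTo_iff x0 y0 hx0
      (fun T => ξ T • (A * T * A⁻¹) + η T • (1 : Mat kk n))).2
      ⟨A, η, ξ, hA, hAx, h1, h2, fun _ => rfl⟩ T S
    rw [h3 T hT, h3 S hS]
    have h5 : l ∈ localSpectrum
        ((ξ T • (A * T * A⁻¹) + η T • (1 : Mat kk n)) * (ξ S • (A * S * A⁻¹) + η S • (1 : Mat kk n)) -
        (ξ S • (A * S * A⁻¹) + η S • (1 : Mat kk n)) *
          (ξ T • (A * T * A⁻¹) + η T • (1 : Mat kk n))) y0 := by
      rw [h4]
      exact hl
    exact h5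

/-- standard form off the scalars gives equality of local spectra at non-scalar pairs -/
theorem eq_of_off (x0 y0 : Fin n → kk) (hx0 : x0 ≠ 0) (φ : Mat kk n → Mat kk n)
    (h : IsStandardOff x0 y0 φ) (T S : Mat kk n) (hT : ¬ ∃ c : kk, T = c • (1 : Mat kk n))
    (hS : ¬ ∃ c : kk, S = c • (1 : Mat kk n)) :
    localSpectrum (φ T * φ S - φ S * φ T) y0 = localSpectrum (T * S - S * T) x0 := by
  obtain ⟨A, η, ξ, hA, hAx, h1, h2, h3⟩ := h
  have h4 := (standardTo_iff x0 y0 hx0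
    (fun T => ξ T • (A * T * A⁻¹) + η T • (1 : Mat kk n))).2
    ⟨A, η, ξ, hA, hAx, h1, h2, fun _ => rfl⟩ T S
  rw [h3 T hT, h3 S hS]
  exact h4

/-- three equivalent descriptions -/
theorem off_tfae (x0 y0 : Fin n → kk) (hx0 : x0 ≠ 0) (hy0 : y0 ≠ 0)
    (φ : Mat kk n → Mat kk n) :
    List.TFAE [
      ∀ T S : Mat kk n, ∀ l ∈ localSpectrum (T * S - S * T) x0, l ≠ 0 →
        l ∈ localSpectrum (φ T * φ S - φ S * φ T) y0,
      ∀ T S : Mat kk n, (¬ ∃ c : kk, T = c • (1 : Mat kk n)) →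
        (¬ ∃ c : kk, S = c • (1 : Mat kk n)) →
        localSpectrum (φ T * φ S - φ S * φ T) y0 = localSpectrum (T * S - S * T) x0,
      IsStandardOff x0 y0 φ] := by
  tfae_have 1 → 3 := (standardOff_iff x0 y0 hx0 hy0 φ).1
  tfae_have 3 → 2 := fun h T S hT hS => eq_of_off x0 y0 hx0 φ h T S hT hS
  tfae_have 2 → 1 := by
    intro h T S l hl hl0
    by_cases hT : ∃ c : kk, T = c • (1 : Mat kk n)
    · obtain ⟨c, rfl⟩ := hT
      rw [smul_mul_assoc, mul_smul_comm, one_mul, mul_one, sub_self] at hl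
      exact absurd (zero_of_mem_zero _ _ hl) hl0
    by_cases hS : ∃ c : kk, S = c • (1 : Mat kk n)
    · obtain ⟨c, rfl⟩ := hS
      rw [smul_mul_assoc, mul_smul_comm, one_mul, mul_one, sub_self] at hl
      exact absurd (zero_of_mem_zero _ _ hl) hl0
    rw [h T S hT hS]
    exact hl
  tfae_finish

end Pool.Agent.Y104.LocSpec
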